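import Pool.Agent.Lib.MP_361a6f_ag.FL.EM.DefsM

/-!
# Theorem EMB, the hook: the statement

As `R11MStatement`, with an element `N` of square zero. The condition on six independent minimal
stable subspaces is only asked for those of which at least five are killed by `N`.
-/

set_option autoImplicit false

open Matrix

namespace Pool.Agent.Lib.MP_361a6f_ag.FL.E

/-- no six independent subspaces with the property `Q`, at least five of them killed by `N`, such
that the first one has dimension at least `32` or the first two have dimension at least `8` -/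
def Few6N {I : Type} [Fintype I] (N : Matrix I I ℂ) (Q : Submodule ℂ (I → ℂ) → Prop) : Prop :=
  ∀ U : Fin 6 → Submodule ℂ (I → ℂ), (∀ i, Q (U i)) → iSupIndep U →
    (∃ i, ∀ j, j ≠ i → ∀ v ∈ U j, N.mulVec v = 0) →
    Module.finrank ℂ (U 0) < 32 ∧ (8 ≤ Module.finrank ℂ (U 0) → Module.finrank ℂ (U 1) < 8)

/-- Row R11N: row R11M with the condition `Few6N` on the minimal stable subspaces. -/
def R11NStatement : Prop :=
  ∀ {I : Type} [Fintype I] [DecidableEq I] (S : Submodule ℂ (Matrix I I ℂ))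
    (E : Set (Matrix I I ℂ)) (P : Matrix I I ℂ),
    (∀ x ∈ S, ∀ y ∈ S, x * y - y * x ∈ S) → (∀ x ∈ S, x.conjTranspose ∈ S) →
    (∀ e ∈ E, ∀ A ∈ S, e * A = A * e) → (∀ e ∈ E, ∃ f ∈ E, f.transpose * P = P * e) →
    (∀ A ∈ S, A.transpose * P + P * A = 0) → IsUnit P → P.transpose = -P →
    ∀ a : I → ℂ, (∀ i, (starRingEnd ℂ) (a i) = a i) → Matrix.diagonal a ∈ S →
    ∀ k : I → ℂ, (∀ i j, a i = a j → k i = k j) →
    ∀ (τ : I → I) (G : ℤˣ → List I → Prop), (∀ i, τ (τ i) = i) → (∀ i, a (τ i) = -a i) →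
    Calc τ a G → (∀ ε v, G ε v → Even v.length) →
    (∀ A ∈ S, ∀ i0 j0, mvR τ G i0 j0 A ∈ S) →
    (∀ U : Submodule ℂ (I → ℂ), (∀ A ∈ S, ∀ v ∈ U, A.mulVec v ∈ U) →
      (∀ e ∈ E, ∀ v ∈ U, e.mulVec v ∈ U) →
      (∀ v ∈ U, ∀ w ∈ U, dotProduct v (P.mulVec w) = 0) → U = ⊥) →
    ∀ N ∈ S, N * N = 0 → Matrix.diagonal a * N = 0 → Few6N N (MinS S E) →
    ∀ (L : ℕ) (u : Ten I L), (∀ A ∈ S, aT A u = 0) →
      (∀ w, u w ≠ 0 → ∃ ε : ℤˣ, G ε (List.ofFn w) ∧ ∏ j, k (w j) = (((ε : ℤ) : ℝ) : ℂ)) →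
      gT (Matrix.diagonal k) u = u

end Pool.Agent.Lib.MP_361a6f_ag.FL.E
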