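import Pool.Agent.Lib.MP_361a6f_ag.FL.EMB.DefsN
import Pool.Agent.Lib.MP_361a6f_ag.FL.EM.DefsW
import Pool.Agent.Lib.MP_361a6f_ag.FL.EB.Defs
import Pool.Agent.Lib.MP_361a6f_ag.FL.E.BR.DefsKB

/-!
# Theorem EMB in coordinates: the statements of the theorem and of the assembly
-/

open Filter Topology

namespace Pool.Agent.Lib.MP_361a6f_ag.FL.E

open BR

/-- THEOREM EMB in coordinates. -/
def ThmNStatement : Prop :=
  ∀ {I Λ : Type} [Fintype I] [DecidableEq I] [DecidableEq Λ] (D : Dat I Λ)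
    (At Bt : (L : ℕ) → Ten I L → Prop) (l : I → ℂ) (Γ : Set (Matrix I I ℂ))
    {β : Type} [Fintype β] (lb : β → ℕ) (b : Tup I lb) (N : Matrix I I ℂ),
    KSysB D At Bt l Γ lb b N → FData D Bt l → Full D At Γ → Few6N N (MinStab D At Γ) →
    ∀ (L : ℕ) (u : Ten I L), u ∈ Submodule.span ℝ {u | At L u} → u ≠ 0 →
      ∃ r : ℝ, 0 < r ∧ psiT D u u = (r : ℂ)

/-- Row WN: the assembly. -/
def WNStatement : Prop :=
  EB.W1zStatement → W2Statement → R11NStatement → Ful1Statement → P2Statement → P3Statement →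
    G4Statement → G4bStatement → ThmNStatement

end Pool.Agent.Lib.MP_361a6f_ag.FL.E
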