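import Pool.Agent.Lib.MP_361a6f_ag.FL.E.BR.NSysB
import Pool.Agent.Lib.MP_361a6f_ag.FL.EB.FrmB
import Pool.Agent.Lib.MP_361a6f_ag.FL.EM.NSM
import Pool.Agent.Lib.MP_361a6f_ag.FL.EMB.DefsW

/-!
# Theorem EMB for the data as they come from geometry
-/

open Filter Topology MeasureTheory

set_option autoImplicit false
set_option linter.unusedSectionVars false

namespace Pool.Agent.Lib.MP_361a6f_ag.FL.E

open Pool.Agent.Lib.MP_361a6f_ag.FL.E.QS Pool.Agent.Lib.MP_361a6f_ag.FL.E.BR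

variable {I Λ : Type} [Fintype I] [DecidableEq I] [DecidableEq Λ]

/-- `Few6N` after transport by an invertible matrix -/
theorem K6.few6N_map {D : Dat I Λ} {Y : Matrix I I ℂ} (a1 : Alg1) (hG : IsG D Y)
    {N : Matrix I I ℂ} {Q Q' : Submodule ℂ (I → ℂ) → Prop} (h : Few6N N Q)
    (hQ : ∀ U, Q' U → Q (U.map (Matrix.toLin' Y))) : Few6N (Y⁻¹ * N * Y) Q' := by
  obtain ⟨hY1, hY2, hY3⟩ := a1.G_inv D Y hG
  intro U hU hi hk
  let e : (I → ℂ) ≃ₗ[ℂ] (I → ℂ) := Matrix.toLin'OfInv hY3 hY2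
  have he : (e : (I → ℂ) →ₗ[ℂ] (I → ℂ)) = Matrix.toLin' Y := rfl
  have hfr : ∀ V : Submodule ℂ (I → ℂ),
      Module.finrank ℂ (V.map (Matrix.toLin' Y)) = Module.finrank ℂ V := by
    intro V
    rw [← he]
    exact LinearEquiv.finrank_map_eq e V
  have h1 := h (fun i => (U i).map (Matrix.toLin' Y)) (fun i => hQ _ (hU i)) (by
    have h2 := hi.map_orderIso (Submodule.orderIsoMapComap e)
    exact h2) (by
    obtain ⟨i, hi⟩ := hk
    refine ⟨i, fun j hj => ?_⟩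
    rintro _ ⟨v, hv, rfl⟩
    have h4 := congrArg (Matrix.mulVec Y) (hi j hj v hv)
    rw [Matrix.mulVec_mulVec, Matrix.mulVec_zero, ← Matrix.mul_assoc, ← Matrix.mul_assoc,
      hY2, Matrix.one_mul] at h4
    rw [Matrix.toLin'_apply, Matrix.mulVec_mulVec]
    exact h4)
  simp only [hfr] at h1
  exact h1

/-- **Theorem EMB for the data from geometry.** -/
theorem ofEMB (hY : YStatement) (a1 : Alg1) (a2 : Alg2) (hB : ThmNStatement) {D : Dat I Λ}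
    {At Ct : (L : ℕ) → Ten I L → Prop} {F : Matrix I I ℂ} {Γ : Set (Matrix I I ℂ)}
    (S : NSys D At Ct F Γ)
    (hf : ∀ u ∈ Submodule.span ℝ {u : Ten I 4 | Ct 4 u}, ∃ r : ℝ, 0 ≤ r ∧ psiT D u u = (r : ℂ))
    (hfull : Full D At Γ)
    (h1 : ∀ U : Submodule ℂ (I → ℂ), StabU D At Γ U →
      (∀ v ∈ U, ∀ w ∈ U, dotProduct v ((Psi D).mulVec w) = 0) → U = ⊥)
    (N : Matrix I I ℂ) (n2 : N * N = 0) (hNG : IsG D (1 + N))
    (hNfix : ∀ L u, At L u → gT (1 + N) u = u) (hNF : F * N = N)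
    (hfew : Few6N N (MinStab D At Γ))
    (L : ℕ) (u : Ten I L) (hu : u ∈ Submodule.span ℝ {u | At L u}) (hu0 : u ≠ 0) :
    ∃ r : ℝ, 0 < r ∧ psiT D u u = (r : ℂ) := by
  obtain ⟨Y, l, β, _, lb, b, hG, hFY, C, F4⟩ := EB.exists_core4B hY a1 a2 S hf
  obtain ⟨hY1, hY2, hY3⟩ := a1.G_inv D Y hG
  have hconj : ∀ A B : Matrix I I ℂ, Y⁻¹ * A * Y * (Y⁻¹ * B * Y) = Y⁻¹ * (A * B) * Y := by
    intro A B
    have : Y⁻¹ * A * Y * (Y⁻¹ * B * Y) = Y⁻¹ * (A * (Y * Y⁻¹) * B) * Y := by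
      simp only [Matrix.mul_assoc]
    rw [this, hY2, Matrix.mul_one]
  have hn2 : Y⁻¹ * N * Y * (Y⁻¹ * N * Y) = 0 := by
    rw [hconj, n2, Matrix.mul_zero, Matrix.zero_mul]
  have h1N : 1 + Y⁻¹ * N * Y = Y⁻¹ * (1 + N) * Y := by
    rw [Matrix.mul_add, Matrix.mul_one, Matrix.add_mul, hY3]
  have hBS : KSysB D (fun L u => At L (gT Y u)) (fun L u => Rsp.Bt Ct L (gT Y u)) l
      {x' | ∃ x ∈ Γ, x' = Y⁻¹ * x * Y} lb b (Y⁻¹ * N * Y) :=
    { toCSys := C.toCSys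
      h1 := by
        intro U hU hiso
        have h3 := h1 _ (orb S.odd a1 hG hU.1 hU.2) (by
          rintro _ ⟨v, hv, rfl⟩ _ ⟨w, hw, rfl⟩
          rw [Matrix.toLin'_apply, Matrix.toLin'_apply, iso_G hG]
          exact hiso v hv w hw)
        rw [← map_back a1 hG U, h3, Submodule.map_bot]
      n2 := hn2
      nlie := by
        refine lie_of_G hn2 a1 ?_
        rw [h1N]
        exact a1.G_mul D _ _ (a1.G_mul D _ _ hY1 hNG) hG
      nfix := by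
        intro L u hu
        refine kill_of_fix hn2 a1 ?_
        rw [h1N]
        apply inj a1 hG
        rw [a1.gT_mul, a1.gT_mul, psi_outer_gT a1 hG]
        exact hNfix L _ hu
      nl := by
        have h3 : Matrix.diagonal l = Y⁻¹ * F * Y := by
          rw [Matrix.mul_assoc, hFY, ← Matrix.mul_assoc, hY3, Matrix.one_mul]
        rw [h3, hconj, hNF] }
  rw [← spanR a1 hG At L] at hu
  obtain ⟨u', hu', rfl⟩ := hu
  have h4 := hB D _ _ _ _ _ _ _ hBS F4 (fun x hx hfix => K6.full_tr a1 hG hfull hx hfix)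
    (K6.few6N_map a1 hG hfew fun U hU => K6.minStab_tr S.odd a1 hG hU) L u' hu'
    (fun h => hu0 (by rw [h, map_zero]))
  obtain ⟨r, hr, h5⟩ := h4
  refine ⟨r, hr, ?_⟩
  rw [← h5]
  exact a1.psiT_gT D Y u' u' hG

end Pool.Agent.Lib.MP_361a6f_ag.FL.E
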