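import Pool.Agent.Lib.MP_361a6f_ag.FL.EM.StatEM
import Pool.Agent.Lib.MP_361a6f_ag.FL.E.BR.StatB

/-!
# Theorem EMB: few big pieces, also modulo the pieces with bad reduction
-/

open CategoryTheory AlgebraicGeometry MonoidalCategory CartesianMonoidalCategory

universe u v w w'

namespace Pool.Agent.Lib.MP_361a6f_ag.FL

open Pool.Agent.Lib.MP_361a6f_ag.H3 Pool.Agent.Lib.MP_361a6f_ag.SQ

/-- `T` is a symmetry of the cohomology of the powers of `X` like a local monodromy operator at the
place of the specialisation: `(T - 1)^2 = 0` on `H^1(X)`, and `F^*` is the multiplication by the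
square root of `q` on the specialisation of `(T - 1) H^1(X)`. -/
def EQ.IsMonodromy {k : Type u} [Field k] {k' : Type v} [Field k']
    {W : CohomologyData.{u, 0, w} k ℂ} {W' : CohomologyData.{v, 0, w'} k' ℂ}
    (D : EQ.Data W W') (T : ∀ P : Prd 1, W.coh (EQ.pw D.X P) → W.coh (EQ.pw D.X P)) : Prop :=
  EQ.IsSym W D.X T ∧
    (∀ x, W.Deg D.X 1 x → EQ.sub1 (X := D.X) T (EQ.sub1 (X := D.X) T x) = 0) ∧
    ∀ x, W.Deg D.X 1 x → W'.pb D.F (D.s (.leaf 0) (EQ.sub1 (X := D.X) T x)) =
      W'.scal ((Real.sqrt D.q : ℝ) : ℂ) (D.s (.leaf 0) (EQ.sub1 (X := D.X) T x))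

/-- There are no six independent minimal stable subspaces of `H^1(X)`, at least five of which are
fixed by `T`, such that the first one has dimension at least `32`, or the first two have dimension
at least `8`. -/
def EQ.FewAt {k : Type u} [Field k] {k' : Type v} [Field k']
    {W : CohomologyData.{u, 0, w} k ℂ} {W' : CohomologyData.{v, 0, w'} k' ℂ}
    (D : EQ.Data W W') (T : ∀ P : Prd 1, W.coh (EQ.pw D.X P) → W.coh (EQ.pw D.X P)) : Prop :=
  ∀ U : Fin 6 → Submodule ℂ (W.coh D.X), (∀ i, EQ.MinStab W D.X D.g (U i)) → iSupIndep U →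
    (∃ i, ∀ j, j ≠ i → ∀ x ∈ U j, EQ.sub1 (X := D.X) T x = 0) →
    Module.finrank ℂ (U 0) < 32 ∧ (8 ≤ Module.finrank ℂ (U 0) → Module.finrank ℂ (U 1) < 8)

/-- No stable subspace of `H^1(X)` except `0` is isotropic for the form `Tr(ξ^(n-1) x y)` (for
abelian varieties: no factor of type IV), and there is an operator `T` as in `EQ.IsMonodromy`
(`T = 1` is allowed) with `EQ.FewAt`.

(For abelian varieties: the second condition is true for `T = 1` if `dim X ≤ 11`, or if `X` is
simple and `dim X ≤ 23`, or if the centre of the endomorphism algebra has degree at most `5`; and at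
a place of bad reduction, for a local monodromy operator `T`, if `X` is simple of any dimension, or
if no simple factor of `X` has potentially good reduction at the place.) -/
structure EQ.PartsAt {k : Type u} [Field k] {k' : Type v} [Field k']
    {W : CohomologyData.{u, 0, w} k ℂ} {W' : CohomologyData.{v, 0, w'} k' ℂ}
    (D : EQ.Data W W') : Prop where
  iso : ∀ U, EQ.Stable W D.X D.g U →
    (∀ x ∈ U, ∀ y ∈ U, W.Tr (W.cup (D.ξ ^ (D.g - 1)) (W.cup x y)) = 0) → U = ⊥
  few : ∃ T, EQ.IsMonodromy D T ∧ EQ.FewAt D T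

/-- **Theorem EMB.** Let `X` be an abelian variety with the property `EQ.PartsAt`. Then `Q1` holds
for all algebraic classes on all powers of `X`, and numerical equivalence is homological
equivalence. Here `X'` is a reduction of `X` over the algebraic closure of a finite field or, at a
place of bad reduction, the product of the abelian part of the semistable reduction and of a power
of a supersingular elliptic curve, and `ξ` is the class of an ample divisor, so that `s(ξ)` is the
class of an ample divisor on `X'`. -/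
def ThmEMB : Prop :=
  ∀ {k : Type u} [Field k] (W : CohomologyData.{u, 0, w} k ℂ) (𝒱 : VarietyClass k)
    (_ : IsWeilCohomology W 𝒱) {k' : Type v} [Field k'] (W' : CohomologyData.{v, 0, w'} k' ℂ)
    (𝒱' : VarietyClass k') (_ : IsWeilCohomology W' 𝒱') (D : EQ.Data W W') (_ : EQ.Hyp 𝒱 𝒱' D)
    (_ : EQ.Moving W' D.X' D.g (D.s (.leaf 0) D.ξ)) (_ : EQ.PartsAt D)
    (P : Prd 1) (η : W.coh (EQ.pw D.X P)) (_ : IsPol W (fun _ => D.ξ) P η),
    EQ.Q1 W (EQ.pw D.X P) (P.dim fun _ => D.g) η ∧ EQ.NumHom W (EQ.pw D.X P)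

end Pool.Agent.Lib.MP_361a6f_ag.FL
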