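import Pool.Agent.Lib.MP_361a6f_ag.FL.E.BR.Fin
import Pool.Agent.Lib.MP_361a6f_ag.FL.EM.Geo
import Pool.Agent.Lib.MP_361a6f_ag.FL.EMB.NSN
import Pool.Agent.Lib.MP_361a6f_ag.FL.EMB.StatEMB

/-!
# Theorem EMB from Theorem EMB in coordinates
-/

open CategoryTheory AlgebraicGeometry MonoidalCategory CartesianMonoidalCategory

universe u v w w'

set_option autoImplicit false

namespace Pool.Agent.Lib.MP_361a6f_ag.FL.E

open Pool.Agent.Lib.MP_361a6f_ag.H3 Pool.Agent.Lib.MP_361a6f_ag.SQ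
  Pool.Agent.Lib.MP_361a6f_ag.PP Pool.Agent.Lib.MP_361a6f_ag.FL.PT

namespace GeoN

open Pool.Agent.Lib.MP_361a6f_ag.FL.E.Orb Pool.Agent.Lib.MP_361a6f_ag.FL.E.BR

section hyp

variable {k : Type u} [Field k] {k' : Type v} [Field k'] {W : CohomologyData.{u, 0, w} k ℂ}
  {𝒱 : VarietyClass k} {W' : CohomologyData.{v, 0, w'} k' ℂ} {𝒱' : VarietyClass k'}
  (hW : IsWeilCohomology W 𝒱) (hW' : IsWeilCohomology W' 𝒱') {D : EQ.Data W W'}
  (h : EQ.Hyp 𝒱 𝒱' D) (hM : EQ.Moving W' D.X' D.g (D.s (.leaf 0) D.ξ))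
  (c : Hst.Core W D.X D.g D.ξ)

include hW' hM in
/-- positivity -/
theorem pos1_EMB (thmB : ThmNStatement) (few : EQ.PartsAt D) : EndE.Pos1 (hst hW h c) := by
  have hΓ := Ful.isMats_symSet hW h c
  have grp := grp1 hW h c hΓ
  have gfix := gfix1 hW h c hΓ
  have h1 := K6.h1_iso c hW h.mem h.div.1 _ hΓ.blk hΓ.sym h.div few.iso
  have S := nsys_hyp hW hW' h c _ grp gfix (nd1 hW h c hΓ few.iso)
  -- the monodromy
  obtain ⟨T, ⟨hT, hT2, hTF⟩, hTU⟩ := few.few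
  obtain ⟨M, hMΓ, hTM⟩ := hΓ.sym T hT
  have hbM := hΓ.blk M hMΓ
  have hsub := sub1_cl1 c hW h.mem h.div.1 hbM hTM
  have hinj : Function.Injective (cl1 c hW h.mem h.div.1) :=
    cls_inj (H := hst hW h c) (d := 1) (ge _)
  have hgr : ∀ v, cl1 c hW h.mem h.div.1 v ∈ W.gr D.X 1 := fun v =>
    cls_gr (H := hst hW h c) v
  have hN : (1 : Matrix (Sub c.D (0, 1)) (Sub c.D (0, 1)) ℂ) + (blk M - 1) = blk M := by
    abel
  have n2 : (blk M - 1 : Matrix (Sub c.D (0, 1)) (Sub c.D (0, 1)) ℂ) * (blk M - 1) = 0 := by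
    refine Matrix.mulVec_injective (funext fun v => ?_)
    have h2 := hT2 _ (hgr v)
    rw [hsub, hsub] at h2
    rw [← Matrix.mulVec_mulVec, Matrix.zero_mulVec]
    exact hinj (h2.trans (map_zero _).symm)
  have hNF : ∀ F' : Matrix (Sub c.D (0, 1)) (Sub c.D (0, 1)) ℂ,
      F' = FM (hst hW h c) (spcOf h.spec D.ξ) hW' h.mem' D.F D.q →
      F' * (blk M - 1) = blk M - 1 := by
    intro F' hF'
    refine Matrix.mulVec_injective (funext fun v => ?_)
    have h2 := hTF _ (hgr v)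
    rw [hsub] at h2
    have h3 := pull_vec1 hW hW' h c ((blk M - 1).mulVec v)
    have h4 : sq D.q • D.s (.leaf 0) (cl1 c hW h.mem h.div.1
        ((FM (hst hW h c) (spcOf h.spec D.ξ) hW' h.mem' D.F D.q).mulVec
          ((blk M - 1).mulVec v))) =
        sq D.q • D.s (.leaf 0) (cl1 c hW h.mem h.div.1 ((blk M - 1).mulVec v)) :=
      h3.symm.trans h2
    have h5 := smul_right_injective _ (sq_ne h.pos) h4
    have h6 := hinj (h.spec.bij.1 h5)
    rw [← Matrix.mulVec_mulVec, hF']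
    exact h6
  have h6 : Few6N (blk M - 1 : Matrix (Sub c.D (0, 1)) (Sub c.D (0, 1)) ℂ)
      (MinStab (subD c.D (0, 1)) (At1 (hst hW h c)) (E.blk '' Ful.symSet hW h c)) := by
    intro U hU hi hk
    have h7 := hTU (fun i => (U i).map (GeoM.cl hW h c))
      (fun i => GeoM.minStab_of hW h c (hU i)) (indep_map (GeoM.cl_inj hW h c) hi) (by
        obtain ⟨i, hk⟩ := hk
        refine ⟨i, fun j hj => ?_⟩
        rintro _ ⟨v, hv, rfl⟩
        exact (hsub v).trans (by rw [hk j hj v hv, map_zero]))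
    have h2 : ∀ V : Submodule ℂ (Sub c.D (0, 1) → ℂ),
        Module.finrank ℂ (V.map (GeoM.cl hW h c)) = Module.finrank ℂ V := fun V =>
      (LinearEquiv.finrank_eq
        (Submodule.equivMapOfInjective (GeoM.cl hW h c) (GeoM.cl_inj hW h c) V)).symm
    simp only [h2] at h7
    exact h7
  exact EndE.pos1_of _ fun L u hu h0 =>
    ofEMB mainY alg1 alg2 thmB S (four_hyp hW hW' h hM c) (Ful.full_symSet hW h c) h1 (blk M - 1)
      n2 (by rw [hN]; exact grp _ ⟨M, hMΓ, rfl⟩) (by rw [hN]; exact gfix _ ⟨M, hMΓ, rfl⟩)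
      (hNF _ rfl) h6 L u (Submodule.subset_span hu) h0

end hyp

end GeoN

/-- **Theorem EMB** from Theorem EMB in coordinates. -/
theorem thmEMB_of (thmB : ThmNStatement) : ThmEMB.{u, v, w, w'} := by
  intro k _ W 𝒱 hW k' _ W' 𝒱' hW' D h hM few P η hη
  obtain ⟨c⟩ := Hst.exists_core_hyp hW h
  exact of_pos1 hW h c (GeoN.pos1_EMB hW hW' h hM c thmB few) P η hη

end Pool.Agent.Lib.MP_361a6f_ag.FL.E
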