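import Pool.Agent.Lib.MP_361a6f_ag.FL.EMB.ZLem
import Pool.Agent.Lib.MP_361a6f_ag.FL.EM.Piece32
import Pool.Agent.Lib.MP_361a6f_ag.FL.E.BR.B5
import Pool.Agent.Lib.MP_361a6f_ag.FL.E.BR.ShareZ
import Pool.Agent.Lib.MP_361a6f_ag.FL.E.BR.LemL

/-!
# Theorem EMB: the torus `zen` inside a maximal torus

The weights that vanish on `zen` are the real combinations of the roots that vanish on `diag a`.
-/

set_option autoImplicit false
set_option linter.unusedSectionVars false

open Matrix Module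
open scoped InnerProductSpace

namespace Pool.Agent.Lib.MP_361a6f_ag.FL.E.Zn

open LemR BR E11

variable {I : Type} [Fintype I] [DecidableEq I] {h : Submodule ℂ (Matrix I I ℂ)} {κ a : I → ℂ}

/-- the roots which vanish at `diag a` -/
def RtL (h : Submodule ℂ (Matrix I I ℂ)) (κ a : I → ℂ) : Set (rt h) :=
  {v | v ∈ Rt h κ ∧ ev v a = 0}

theorem RtL_le : RtL h κ a ⊆ Rt h κ := fun _ hv => hv.1

theorem ev_smul (c : ℝ) (v : rt h) (T : I → ℂ) : ev (c • v) T = (c : ℂ) * ev v T := by
  rw [ev, ev, Finset.mul_sum]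
  refine Finset.sum_congr rfl fun i _ => ?_
  have e : ((c • v : rt h) : EuclideanSpace ℝ I) i = c * (v : EuclideanSpace ℝ I) i := rfl
  rw [e]
  push_cast
  ring

/-- the span of these roots vanishes on `zen` -/
theorem ev_zen (ha : diagonal a ∈ h) {v : rt h} (hv : v ∈ Submodule.span ℝ (RtL h κ a))
    {T : I → ℂ} (hT : diagonal T ∈ zen h (diagonal a)) : ev v T = 0 := by
  induction hv using Submodule.span_induction with
  | mem v hv =>
    obtain ⟨⟨hv0, x, α, c, hx, hxa⟩, hva⟩ := hv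
    obtain ⟨i, j, hij⟩ : ∃ i j, x i j ≠ 0 := by
      by_contra hc
      push Not at hc
      exact hx.ne (by ext i j; simpa using hc i j)
    have hcomm : x * diagonal a = diagonal a * x := by
      ext k l
      rw [Matrix.mul_diagonal, Matrix.diagonal_mul]
      by_cases h0 : x k l = 0
      · rw [h0, zero_mul, mul_zero]
      · have h1 := hx.wt k l h0 a ha
        rw [← hxa a ha, hva] at h1
        rw [sub_eq_zero.1 h1, mul_comm]
    have h2 := hT.2.2 x hx.mem hcomm
    have h3 : T i = T j := BR.LemL.entry_comm h2.symm hij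
    rw [hxa T hT.1, ← hx.wt i j hij T hT.1, h3, sub_self]
  | zero => exact ev_zero T
  | add v w _ _ ih ih' => rw [ev_add, ih, ih', add_zero]
  | smul c v _ ih => rw [ev_smul, ih, mul_zero]

/-- a real element orthogonal to these roots is in `zen` -/
theorem zen_of_orth (hS : Sit h κ) (ha : diagonal a ∈ h) {w : rt h}
    (hw : ∀ v ∈ RtL h κ a, ⟪v, w⟫_ℝ = 0) :
    diagonal (fun i => (((w : EuclideanSpace ℝ I) i : ℝ) : ℂ)) ∈ zen h (diagonal a) := by
  refine ⟨mem_rt w, ?_, fun A hA hAa => ?_⟩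
  · rw [Matrix.diagonal_mul_diagonal, Matrix.diagonal_mul_diagonal]
    congr 1
    funext i
    ring
  · ext i j
    rw [Matrix.mul_diagonal, Matrix.diagonal_mul]
    by_cases h0 : A i j = 0
    · rw [h0, zero_mul, mul_zero]
    · have h1 : ⟪wt h i - wt h j, w⟫_ℝ = 0 := by
        by_cases hv : wt h i - wt h j = 0
        · rw [hv, inner_zero_left]
        · obtain ⟨y, hy, -⟩ := exists_hom hS hA h0
          refine hw _ ⟨⟨hv, y, _, _, hy, fun T hT => ?_⟩, ?_⟩
          · rw [ev_sub, ev_wt hS i hT, ev_wt hS j hT]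
          · rw [ev_sub, ev_wt hS i ha, ev_wt hS j ha, BR.LemL.entry_comm hAa h0, sub_self]
      rw [inner_sub_left, inner_wt, inner_wt, sub_eq_zero] at h1
      rw [h1, mul_comm]

/-- the weights that vanish on `zen` -/
theorem mem_span (hS : Sit h κ) (ha : diagonal a ∈ h) {v : rt h}
    (hv : ∀ T, diagonal T ∈ zen h (diagonal a) → ev v T = 0) :
    v ∈ Submodule.span ℝ (RtL h κ a) := by
  rw [← Submodule.orthogonal_orthogonal (Submodule.span ℝ (RtL h κ a)),
    Submodule.mem_orthogonal]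
  intro w hw
  rw [Submodule.mem_orthogonal] at hw
  have h1 := hv _ (zen_of_orth hS ha fun u hu => hw u (Submodule.subset_span hu))
  rw [ev_real] at h1
  rw [real_inner_comm]
  exact_mod_cast h1

/-- the situation for `zen` -/
theorem zsit (hS : Sit h κ) (hκ : ∀ i, κ i = 1) (ha : diagonal a ∈ h)
    (hreal : ∀ i, (starRingEnd ℂ) (a i) = a i) : ZSit h κ a where
  lie := hS.lie
  star := hS.star
  ne := hS.ne
  ad := hS.ad
  mem := ha
  real := hreal
  eq := fun i j _ => by rw [hκ, hκ]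
  dia := by
    intro y hy
    refine ⟨fun i => y i i, ?_⟩
    ext i j
    by_cases hij : i = j
    · rw [hij, Matrix.diagonal_apply_eq]
    · rw [Matrix.diagonal_apply_ne _ hij]
      by_contra h0
      refine hij (hS.tor y hy.1 (fun T hT k l hkl => ?_) i j h0)
      refine BR.LemL.entry_comm (hy.2.2 _ hT ?_) hkl
      rw [Matrix.diagonal_mul_diagonal, Matrix.diagonal_mul_diagonal]
      congr 1
      funext m
      ring

/-- the elements of `Q + A` are sums of types on `zen` -/
theorem exists_types (hS : Sit h κ) (ha : diagonal a ∈ h) {v : rt h}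
    (hv : v ∈ ZL.QA (Rt h κ) (RtL h κ a)) :
    ∃ s : Multiset (Tri I), (∀ p ∈ s, HomZ h κ a p.1 p.2.1 p.2.2) ∧
      ∀ T, ShZ.Zt h a T → ev v T = (s.map fun p => p.2.1 T).sum := by
  obtain ⟨q, hq, w, hw, rfl⟩ := AddSubgroup.mem_sup.1 hv
  obtain ⟨z, s, h1, h2, -⟩ := exists_sum hS hq
  refine ⟨s, fun p hp => ?_, fun T hT => ?_⟩
  · have h3 := h1 p hp
    exact ⟨h3.mem, h3.ne, fun i j hij T hT => h3.wt i j hij T hT.1, h3.kk⟩
  · rw [ev_add, ev_zen ha hw hT, add_zero, h2 T hT.1]

/-- the piece situation -/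
theorem pieceZ {P : Matrix I I ℂ} (hS : Sit h κ) (hP : ∀ A ∈ h, A.transpose * P + P * A = 0)
    (hPt : P.transpose = -P) (V : I → Submodule ℂ (I → ℂ)) (hV : ∀ l, Nice h P (V l))
    (hl : ∀ l, wt h l ∈ WtU h (V l)) :
    PieceZ (wt h) (Rt h κ) (fun l => WtU h (V l)) (fun l => finrank ℂ (V l)) where
  self := hl
  wt := by
    rintro l v ⟨u, -, hu0, hu⟩
    obtain ⟨i, hi⟩ : ∃ i, u i ≠ 0 := by
      by_contra hc
      push Not at hc
      exact hu0 (funext hc)
    exact ⟨i, hu i hi⟩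
  neg := (pieceSit hS hP hPt V hV hl).neg
  mov := (pieceSit hS hP hPt V hV hl).mov
  card := (pieceSit hS hP hPt V hV hl).card
  par := fun l v hv N hev hN ho h2 => (hV l).parQ hS hP hPt hv N hev hN ho h2

end Pool.Agent.Lib.MP_361a6f_ag.FL.E.Zn
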