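import Pool.Agent.Lib.MP_361a6f_ag.FL.EMB.DefsN
import Pool.Agent.Lib.MP_361a6f_ag.FL.EMB.Zn
import Pool.Agent.Lib.MP_361a6f_ag.FL.EM.R11M
import Pool.Agent.Lib.MP_361a6f_ag.FL.EB.R4z

/-!
# Theorem EMB, row R11N: the hook

The frame and the pieces are those of `FL/EM/R11M.lean`, the words are reduced for the torus `zen`
as in `FL/EB/R4z.lean`, the classes are the classes of the weights modulo the lattice of the roots
and the span of the roots that vanish on `diag a`; the counting lemma is `E11.lemmaZ`.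
-/

set_option autoImplicit false
set_option linter.unusedSectionVars false

open Matrix Module

namespace Pool.Agent.Lib.MP_361a6f_ag.FL.E.Zn

open LemR P5e K1 R4 Mn

/-- `Few6N` for the pieces of letters in different classes -/
theorem not_few6N {I : Type} [Fintype I] [DecidableEq I] {N : Matrix I I ℂ}
    {Q : Submodule ℂ (I → ℂ) → Prop}
    (hQ : Few6N N Q) {B : Matrix I I ℂ} (hU2 : B * Bᴴ = 1) {A : Type} (q : I → A)
    (M : I → Submodule ℂ (I → ℂ)) (hM : ∀ l, Q (M l))
    (hMq : ∀ l, M l ≤ H5.co B {i | q i = q l}) {L : ℕ} (hL : 6 ≤ L) (l : Fin L → I)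
    (hl : Function.Injective fun a => q (l a)) (c : A)
    (hk : ∀ i, q i ≠ c → ∀ v ∈ M i, N.mulVec v = 0) :
    ¬ ((∃ a b, a ≠ b ∧ 8 ≤ finrank ℂ (M (l a)) ∧ 8 ≤ finrank ℂ (M (l b))) ∨
      ∃ a, 32 ≤ finrank ℂ (M (l a))) := by
  have key : ∀ a b, a ≠ b → finrank ℂ (M (l a)) < 32 ∧
      (8 ≤ finrank ℂ (M (l a)) → finrank ℂ (M (l b)) < 8) := by
    intro a b hab
    obtain ⟨φ, hφ, h0, h1⟩ := exists_inj6 hL hab
    have h2 : iSupIndep fun j => M (l (φ j)) :=
      ((H5.co_indep hU2 q).comp (f := fun j => q (l (φ j))) (fun i j hij => hφ (hl hij))).mono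
        fun j => hMq (l (φ j))
    have h4 : ∃ i, ∀ j, j ≠ i → ∀ v ∈ M (l (φ j)), N.mulVec v = 0 := by
      by_cases h5 : ∃ i, q (l (φ i)) = c
      · obtain ⟨i, hi⟩ := h5
        refine ⟨i, fun j hj => hk _ fun h6 => hj (hφ (hl ?_))⟩
        exact h6.trans hi.symm
      · push Not at h5
        exact ⟨0, fun j _ => hk _ (h5 j)⟩
    have h3 := hQ _ (fun j => hM (l (φ j))) h2 h4
    rw [h0, h1] at h3
    exact h3
  rintro (⟨a, b, hab, h1, h2⟩ | ⟨a, h1⟩)
  · have h3 := (key a b hab).2 h1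
    omega
  · obtain ⟨b, hb⟩ : ∃ b : Fin L, a ≠ b := by
      by_cases h0 : a = ⟨0, by omega⟩
      · refine ⟨⟨1, by omega⟩, ?_⟩
        rw [h0]
        intro h
        exact absurd (congrArg Fin.val h) (by simp)
      · exact ⟨_, h0⟩
    have h3 := (key a b hb).1
    omega

/-- **Row R11N.** -/
theorem r11N : R11NStatement := by
  intro I _ _ S E P hlie hstar hE hEP hP hu hskew a hreal ha k hak τ G hττ hτ C heven hmv h1
    N hN hNN haN hfew L u hku hu0
  classical
  have a1 : Alg1 := alg1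
  obtain ⟨U, κ, r, F, har, hmr⟩ := exists_frame5 S E hlie hstar hE a hreal ha (fun _ => 1)
    (fun _ => one_ne_zero) (fun _ _ _ => rfl)
    (fun e _ => by rw [Matrix.diagonal_one, Matrix.mul_one, Matrix.one_mul])
    (fun A hA => by
      rw [inv_one, Matrix.diagonal_one, Matrix.one_mul, Matrix.mul_one]
      exact hA)
  have hκ1 : ∀ i, κ i = 1 := by
    intro i
    obtain ⟨j, hj⟩ := F.val i
    exact hj
  have hS := F.sit
  have hU1 := F.u1
  have hU2 := F.u2
  -- the form in the new coordinates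
  have hUT : Uᵀ * Uᴴᵀ = 1 := by
    rw [← Matrix.transpose_mul, hU1, Matrix.transpose_one]
  have hQlie : ∀ X ∈ conjS U S, Xᵀ * (Uᵀ * P * U) + Uᵀ * P * U * X = 0 := by
    intro X hX
    have h2 := hP _ (mem_conjS.1 hX)
    rw [Matrix.transpose_mul, Matrix.transpose_mul] at h2
    calc Xᵀ * (Uᵀ * P * U) + Uᵀ * P * U * X
        = (Uᵀ * Uᴴᵀ) * (Xᵀ * Uᵀ) * P * U + Uᵀ * P * (U * X) * (Uᴴ * U) := by
          rw [hUT, hU1, Matrix.one_mul, Matrix.mul_one]
          simp only [Matrix.mul_assoc]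
      _ = Uᵀ * (Uᴴᵀ * (Xᵀ * Uᵀ) * P + P * (U * X * Uᴴ)) * U := by
          rw [Matrix.mul_add, Matrix.add_mul]
          simp only [Matrix.mul_assoc]
      _ = 0 := by rw [h2, Matrix.mul_zero, Matrix.zero_mul]
  have hQpair : ∀ i j, (Uᵀ * P * U) i j ≠ 0 →
      (∀ T, diagonal T ∈ conjS U S → T i + T j = 0) ∧ κ i * κ j = 1 := by
    intro i j hij
    refine ⟨fun T hT => ?_, by rw [hκ1, hκ1, mul_one]⟩
    have h2 := congrFun (congrFun (hQlie _ hT) i) j
    rw [Matrix.diagonal_transpose, Matrix.add_apply, Matrix.diagonal_mul, Matrix.mul_diagonal,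
      Matrix.zero_apply, mul_comm, ← mul_add] at h2
    exact (mul_eq_zero.1 h2).resolve_left hij
  -- the classes
  let rr : Setoid I := ⟨Conn (conjS U S) κ, fun i => Conn.refl i, fun h2 => conn_symm hS h2,
    fun h2 h3 => conn_trans hS h2 h3⟩
  let B : Type := Quotient rr
  let q : I → B := fun i => Quotient.mk rr i
  have hq : ∀ i j, Conn (conjS U S) κ i j → q i = q j := fun i j hij => Quotient.sound hij
  have hqc : ∀ i j, q i = q j → Conn (conjS U S) κ i j := fun i j hij => Quotient.exact hij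
  have : Fintype B := Fintype.ofFinite B
  -- the pairs
  have pairs : ∀ i, ∃ a b, Conn (conjS U S) κ i a ∧ Conn (conjS U S) κ i b ∧
      (∀ T, diagonal T ∈ conjS U S → T a + T b = 0) ∧ κ a * κ b = 1 := by
    intro i
    by_contra hc
    -- the coordinate subspace of the class of `i`
    let W : Submodule ℂ (I → ℂ) :=
      { carrier := {v | ∀ j, ¬ Conn (conjS U S) κ i j → (Uᴴ *ᵥ v) j = 0}
        add_mem' := by
          intro v v' hv hv' j hj
          rw [Matrix.mulVec_add, Pi.add_apply, hv j hj, hv' j hj, add_zero]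
        zero_mem' := by
          intro j _
          rw [Matrix.mulVec_zero, Pi.zero_apply]
        smul_mem' := by
          intro c v hv j hj
          rw [Matrix.mulVec_smul, Pi.smul_apply, hv j hj, smul_zero] }
    have hst : ∀ M : Matrix I I ℂ, (∀ x y, (Uᴴ * M * U) x y ≠ 0 → Conn (conjS U S) κ x y) →
        ∀ v ∈ W, M.mulVec v ∈ W := by
      intro M hM v hv x hx
      have e : Uᴴ *ᵥ (M *ᵥ v) = (Uᴴ * M * U) *ᵥ (Uᴴ *ᵥ v) := by
        rw [Matrix.mulVec_mulVec, Matrix.mulVec_mulVec]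
        congr 1
        calc Uᴴ * M = Uᴴ * M * (U * Uᴴ) := by rw [hU2, Matrix.mul_one]
          _ = Uᴴ * M * U * Uᴴ := by simp only [Matrix.mul_assoc]
      rw [e, Matrix.mulVec, dotProduct]
      refine Finset.sum_eq_zero fun y _ => ?_
      by_cases hy : Conn (conjS U S) κ i y
      · by_cases h0 : (Uᴴ * M * U) x y = 0
        · rw [h0, zero_mul]
        · exact absurd (conn_trans hS hy (conn_symm hS (hM x y h0))) hx
      · rw [hv y hy, mul_zero]
    have hW := h1 W
      (fun A hA => hst A fun x y h0 => Conn.step hS (F.mem A hA) h0 (Conn.refl y))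
      (fun e he => hst e fun x y h0 =>
        Conn.same (F.same e he x y h0).1 (F.same e he x y h0).2 (Conn.refl y)) (by
        intro v hv w hw
        have hUv : ∀ x : I → ℂ, U *ᵥ (Uᴴ *ᵥ x) = x := by
          intro x
          rw [Matrix.mulVec_mulVec, hU2, Matrix.one_mulVec]
        have e : dotProduct v (P *ᵥ w)
            = dotProduct (Uᴴ *ᵥ v) ((Uᵀ * P * U) *ᵥ (Uᴴ *ᵥ w)) := by
          calc dotProduct v (P *ᵥ w)
              = dotProduct (U *ᵥ (Uᴴ *ᵥ v)) (P *ᵥ (U *ᵥ (Uᴴ *ᵥ w))) := by rw [hUv, hUv]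
            _ = dotProduct (Uᴴ *ᵥ v) (Uᵀ *ᵥ (P *ᵥ (U *ᵥ (Uᴴ *ᵥ w)))) := by
                rw [Matrix.dotProduct_mulVec (Uᴴ *ᵥ v), Matrix.vecMul_transpose]
            _ = _ := by simp only [Matrix.mulVec_mulVec, Matrix.mul_assoc]
        rw [e, dotProduct]
        refine Finset.sum_eq_zero fun x _ => ?_
        by_cases hx : Conn (conjS U S) κ i x
        · have h2 : ((Uᵀ * P * U) *ᵥ (Uᴴ *ᵥ w)) x = 0 := by
            rw [Matrix.mulVec, dotProduct]
            refine Finset.sum_eq_zero fun y _ => ?_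
            by_cases hy : Conn (conjS U S) κ i y
            · by_cases h0 : (Uᵀ * P * U) x y = 0
              · rw [h0, zero_mul]
              · exact absurd ⟨x, y, hx, hy, hQpair x y h0⟩ hc
            · rw [hw y hy, mul_zero]
          rw [h2, mul_zero]
        · rw [hv x hx, zero_mul])
    have h2 : U *ᵥ Pi.single i 1 ∈ W := by
      intro j hj
      rw [Matrix.mulVec_mulVec, hU1, Matrix.one_mulVec]
      refine Pi.single_eq_of_ne ?_ _
      rintro rfl
      exact hj (Conn.refl _)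
    rw [hW, Submodule.mem_bot] at h2
    have h3 := congrArg (fun v => (Uᴴ *ᵥ v) i) h2
    simp only [Matrix.mulVec_mulVec, hU1, Matrix.one_mulVec, Pi.single_eq_same,
      Matrix.mulVec_zero, Pi.zero_apply] at h3
    exact one_ne_zero h3
  have hUUH : ∀ {L : ℕ} (u : Ten I L), gT U (gT Uᴴ u) = u := by
    intro L u
    rw [← a1.gT_mul, hU2, a1.gT_one]
  have hnull : ∀ {L : ℕ} (u : Ten I L), (∀ A ∈ S, aT A u = 0) → ∀ w, gT Uᴴ u w ≠ 0 →
      ∀ T, diagonal T ∈ conjS U S → ((Finset.univ.val.map w).map T).sum = 0 := by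
    intro L u hku w hw T hT
    have h4 := congrFun (F.kill L u hku _ hT) w
    rw [P5e.aT_diag, Pi.zero_apply] at h4
    have h5 := (mul_eq_zero.1 h4).resolve_right hw
    rw [Multiset.map_map]
    exact h5
  -- the words in the new coordinates
  have hword : ∀ {L : ℕ} (u : Ten I L),
      (∀ w, u w ≠ 0 → ∃ ε : ℤˣ, G ε (List.ofFn w) ∧ ∏ j, k (w j) = (((ε : ℤ) : ℝ) : ℂ)) →
      ∀ w, gT Uᴴ u w ≠ 0 → ∃ ε : ℤˣ, Gn G r ε (Finset.univ.val.map w) ∧
        ∏ j, k (r (w j)) = (((ε : ℤ) : ℝ) : ℂ) := by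
    intro L u hu w hw
    obtain ⟨w0, h2, h3⟩ : ∃ w0, u w0 ≠ 0 ∧ ∀ j, Uᴴ (w j) (w0 j) ≠ 0 := by
      by_contra hc
      push Not at hc
      apply hw
      show ∑ w' : Fin L → I, (∏ i, Uᴴ (w i) (w' i)) * u w' = 0
      refine Finset.sum_eq_zero fun w' _ => ?_
      by_cases h0 : u w' = 0
      · rw [h0, mul_zero]
      · obtain ⟨j, hj⟩ := hc w' h0
        rw [Finset.prod_eq_zero (Finset.mem_univ j) hj, zero_mul]
    have h4 : ∀ j, a (w0 j) = a (r (w j)) := by
      intro j
      refine har _ _ fun h0 => h3 j ?_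
      rw [Matrix.conjTranspose_apply, h0, star_zero]
    obtain ⟨ε, h5, h6⟩ := hu w0 h2
    refine ⟨ε, ⟨List.ofFn w, ?_, ?_⟩, ?_⟩
    · rw [Fin.univ_val_map]
    · refine C.blk ε _ _ ?_ h5
      rw [List.map_ofFn, List.map_map, List.map_ofFn]
      congr 1
      funext j
      exact h4 j
    · rw [← h6]
      exact Finset.prod_congr rfl fun j _ => hak _ _ (h4 j).symm
  -- the torus `zen`
  let a' : I → ℂ := fun j => a (r j)
  let h := conjS U S
  have hmr' : diagonal a' ∈ h := hmr
  have hz : BR.ZSit h κ a' := zsit hS hκ1 hmr' fun i => hreal _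
  have hza : BR.ShZ.Zt h a' a' := BR.B5.zen_self hmr'
  -- the classes modulo the roots and the span of the roots that vanish on `a'`
  let QA := E11.ZL.QA (E11.Rt h κ) (RtL h κ a')
  let sd : Setoid I :=
    { r := fun i j => E11.wt h i - E11.wt h j ∈ QA
      iseqv :=
        { refl := fun i => by rw [sub_self]; exact QA.zero_mem
          symm := by
            intro i j hij
            have e : E11.wt h j - E11.wt h i = -(E11.wt h i - E11.wt h j) := by abel
            rw [e]
            exact QA.neg_mem hij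
          trans := by
            intro i j l hij hjl
            have e : E11.wt h i - E11.wt h l =
                (E11.wt h i - E11.wt h j) + (E11.wt h j - E11.wt h l) := by abel
            rw [e]
            exact QA.add_mem hij hjl } }
  let Bz : Type := Quotient sd
  let qz : I → Bz := Quotient.mk sd
  have hqz : ∀ i j, qz i = qz j ↔ E11.wt h i - E11.wt h j ∈ QA := fun i j => Quotient.eq
  have : Fintype Bz := Fintype.ofFinite Bz
  have hqzc : ∀ i j, Conn h κ i j → qz i = qz j := fun i j hij =>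
    (hqz i j).2 (E11.ZL.q_le ((E11.sub_mem_iff hS F.eqv i j).2 hij))
  have hqzS : ∀ A ∈ h, ∀ i j, A i j ≠ 0 → qz i = qz j := fun A hA i j hij =>
    hqzc i j (Conn.step hS hA hij (Conn.refl j))
  have hR0 : E11.RootSit0 (E11.wt h) (E11.Rt h κ) := E11.RootSit0_of hS F.eqv fun i => by
    obtain ⟨x, y, hx, hy, hxy, -⟩ := pairs i
    exact ⟨x, y, hx, hy, hxy⟩
  -- the entries of `N`
  have hAH : (diagonal a)ᴴ = diagonal a := by
    rw [diagonal_conjTranspose]
    congr 1
    funext i
    exact hreal i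
  have hzN := BR.Iso.iso4a BR.r3 S E P ⟨hlie, hstar⟩ hE hP hu (diagonal a) ha hAH h1 N hN hNN haN
  have emul : ∀ A B, U * (A * B) * Uᴴ = (U * A * Uᴴ) * (U * B * Uᴴ) := by
    intro A B
    calc U * (A * B) * Uᴴ = U * A * 1 * B * Uᴴ := by rw [Matrix.mul_one]; noncomm_ring
      _ = (U * A * Uᴴ) * (U * B * Uᴴ) := by rw [← hU1]; noncomm_ring
  have eback : ∀ A : Matrix I I ℂ, U * (Uᴴ * A * U) * Uᴴ = A := by
    intro A
    calc U * (Uᴴ * A * U) * Uᴴ = (U * Uᴴ) * A * (U * Uᴴ) := by noncomm_ring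
      _ = A := by rw [hU2, Matrix.one_mul, Matrix.mul_one]
  have efor : ∀ X : Matrix I I ℂ, Uᴴ * (U * X * Uᴴ) * U = X := by
    intro X
    calc Uᴴ * (U * X * Uᴴ) * U = (Uᴴ * U) * X * (Uᴴ * U) := by noncomm_ring
      _ = X := by rw [hU1, Matrix.one_mul, Matrix.mul_one]
  have einj : ∀ X Y : Matrix I I ℂ, U * X * Uᴴ = U * Y * Uᴴ → X = Y := by
    intro X Y h
    rw [← efor X, h, efor]
  have ea : U * diagonal a' * Uᴴ = diagonal a := by
    have h2 : diagonal a * U = U * diagonal a' := by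
      ext i j
      rw [Matrix.diagonal_mul, Matrix.mul_diagonal]
      by_cases h0 : U i j = 0
      · simp [h0]
      · rw [har i j h0, mul_comm]
    rw [← h2, Matrix.mul_assoc, hU2, Matrix.mul_one]
  have hzen : ∀ X, X ∈ BR.zen h (diagonal a') → U * X * Uᴴ ∈ BR.zen S (diagonal a) := by
    intro X hX
    refine ⟨mem_conjS.1 hX.1, ?_, fun A hA hAA => ?_⟩
    · rw [← ea, ← emul, ← emul, hX.2.1]
    · obtain ⟨A', hA', hAm⟩ : ∃ A' ∈ h, U * A' * Uᴴ = A := ⟨_, F.mem A hA, eback A⟩
      have h2 : A' * diagonal a' = diagonal a' * A' := by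
        apply einj
        rw [emul, emul, hAm, ea, hAA]
      have h3 := congrArg (fun Y => U * Y * Uᴴ) (hX.2.2 A' hA' h2)
      simp only [emul, hAm] at h3
      exact h3
  have hNrow : ∀ b c, (Uᴴ * N * U) b c ≠ 0 → ∀ T, BR.ShZ.Zt h a' T → T b = 0 := by
    intro b c hbc T hT
    have h2 := (hzN _ (hzen _ hT)).1
    have h3 : diagonal T * (Uᴴ * N * U) = 0 := by
      apply einj
      rw [emul (diagonal T) (Uᴴ * N * U), eback N, h2, Matrix.mul_zero, Matrix.zero_mul]
    have h4 := congrFun (congrFun h3 b) c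
    rw [Matrix.diagonal_mul, Matrix.zero_apply] at h4
    exact (mul_eq_zero.1 h4).resolve_right hbc
  have hNcol : ∀ i j i' j', (Uᴴ * N * U) i j ≠ 0 → (Uᴴ * N * U) i' j' ≠ 0 → qz j = qz j' := by
    intro i j i' j' h2 h3
    have h4 : ∀ x y, (Uᴴ * N * U) x y ≠ 0 → E11.wt h x ∈ QA := by
      intro x y hxy
      refine (le_sup_right : (Submodule.span ℝ (RtL h κ a')).toAddSubgroup ≤ QA) ?_
      exact mem_span hS hmr' fun T hT => by
        rw [E11.ev_wt hS x hT.1]
        exact hNrow x y hxy T hT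
    have h5 : qz i = qz i' := (hqz i i').2 (QA.sub_mem (h4 i j h2) (h4 i' j' h3))
    have h6 := hqzS _ (F.mem N hN)
    exact ((h6 i j h2).symm.trans h5).trans (h6 i' j' h3)
  -- `N` kills the classes without entries of `N`
  have hkill : ∀ J : Set I, (∀ i, ∀ j ∈ J, (Uᴴ * N * U) i j = 0) →
      ∀ v ∈ H5.co U J, N.mulVec v = 0 := by
    intro J hJ v hv
    have e : Uᴴ *ᵥ (N *ᵥ v) = 0 := by
      have e1 : Uᴴ *ᵥ (N *ᵥ v) = (Uᴴ * N * U) *ᵥ (Uᴴ *ᵥ v) := by
        rw [Matrix.mulVec_mulVec, Matrix.mulVec_mulVec]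
        congr 1
        calc Uᴴ * N = Uᴴ * N * (U * Uᴴ) := by rw [hU2, Matrix.mul_one]
          _ = Uᴴ * N * U * Uᴴ := by simp only [Matrix.mul_assoc]
      rw [e1]
      funext i
      rw [Matrix.mulVec, dotProduct, Pi.zero_apply]
      refine Finset.sum_eq_zero fun j _ => ?_
      by_cases hj : j ∈ J
      · rw [hJ i j hj, zero_mul]
      · rw [hv j hj, mul_zero]
    calc N *ᵥ v = (U * Uᴴ) *ᵥ (N *ᵥ v) := by rw [hU2, Matrix.one_mulVec]
      _ = 0 := by rw [← Matrix.mulVec_mulVec, e, Matrix.mulVec_zero]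
  -- the reduction
  have heqv : EB.RedZ.Eqv a' (Q τ G r) := by
    refine ⟨fun i j k l h => q_symm C hττ r h, fun i j k l m n h h1 => q_trans C r h h1, ?_⟩
    intro x y i j i' j' hi hj h
    refine C.blk 1 _ _ ?_ h
    have hi' : a (r i) = a (r i') := hi
    have hj' : a (r j) = a (r j') := hj
    simp only [List.map_cons, List.map_nil, hτ, hi', hj']
  have rules : ∀ e : ℤˣ, EB.RedZ.RulesZ h a' (Q τ G r) (Gn G r e) := fun e =>
    ⟨fun i j v hT h => gn_can C hτ r (hT a' hza) h,
      fun l m m' n v hQ h => gn_exch C r hQ h⟩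
  have hsum : ∀ i j, qz i = qz j → ∃ s : Multiset (Tri I),
      (∀ p ∈ s, EB.RedZ.HomRZ h κ a' (Q τ G r) p.1 p.2.1 p.2.2) ∧
      ∀ T, BR.ShZ.Zt h a' T → T i + T j = (s.map fun p => p.2.1 T).sum := by
    intro i j hij
    have h2 : E11.wt h i + E11.wt h j ∈ QA := by
      have e : E11.wt h i + E11.wt h j =
          (E11.wt h i - E11.wt h j) + (E11.wt h j + E11.wt h j) := by abel
      rw [e]
      exact QA.add_mem ((hqz i j).1 hij) (E11.ZL.q_le (hR0.two j))
    obtain ⟨s, h3, h4⟩ := exists_types hS hmr' h2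
    obtain ⟨s', h5, h6⟩ := EB.R4z.refine_msZ C hττ hτ hmv har s h3
    refine ⟨s', h5, fun T hT => ?_⟩
    rw [h6 T, ← h4 T hT, E11.ev_add, E11.ev_wt hS i hT.1, E11.ev_wt hS j hT.1]
  choose M hM using fun l => exists_piece F hP hEP hskew hu h1 qz hqzc l
  have main : ∀ (e : ℤˣ) (v : Multiset I), Gn G r e v →
      (∀ T, diagonal T ∈ conjS U S → (v.map T).sum = 0) → e = 1 := by
    intro e v hv h0
    obtain ⟨v', h2, h0', h3, -⟩ := EB.RedZ.red hz heqv (rules e) qz hqzS hsum _ v le_rfl hv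
      fun T hT => h0 T hT.1
    have hlt : Multiset.card v' < 6 := by
      by_contra hc
      push Not at hc
      obtain ⟨t, rfl⟩ : ∃ t : List I, (t : Multiset I) = v' := ⟨v'.toList, v'.coe_toList⟩
      have hn : (t.map qz).Nodup := h3
      have hinj := List.nodup_iff_injective_get.1 hn
      have h4 : ∑ j : Fin t.length, E11.wt h (t.get j) ∈ QA := by
        refine (le_sup_right : (Submodule.span ℝ (RtL h κ a')).toAddSubgroup ≤ QA) ?_
        refine mem_span hS hmr' fun T hT => ?_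
        have e1 : ∀ s : Finset (Fin t.length), E11.ev (∑ j ∈ s, E11.wt h (t.get j)) T =
            ∑ j ∈ s, T (t.get j) := by
          intro s
          induction s using Finset.induction_on with
          | empty => rw [Finset.sum_empty, Finset.sum_empty, E11.ev_zero]
          | insert b s hb ih =>
            rw [Finset.sum_insert hb, Finset.sum_insert hb, E11.ev_add, ih,
              E11.ev_wt hS _ hT.1]
        rw [e1]
        have h5 := h0' T hT
        rw [Multiset.map_coe, Multiset.sum_coe] at h5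
        rw [← h5]
        exact Fin.sum_univ_fun_getElem t T
      have h5 : ∀ x y : Fin t.length, x ≠ y →
          E11.wt h (t.get x) - E11.wt h (t.get y) ∉ QA := by
        intro x y hxy hcon
        have h5 := (hqz _ _).2 hcon
        have h6 : (t.map qz).get ⟨x.1, by rw [List.length_map]; exact x.2⟩
            = (t.map qz).get ⟨y.1, by rw [List.length_map]; exact y.2⟩ := by
          simpa using h5
        have h7 := congrArg Fin.val (hinj h6)
        exact hxy (Fin.ext h7)
      have hPt : (Uᵀ * P * U).transpose = -(Uᵀ * P * U) := by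
        rw [Matrix.transpose_mul, Matrix.transpose_mul, Matrix.transpose_transpose, hskew,
          Matrix.neg_mul, Matrix.mul_neg, Matrix.mul_assoc]
      obtain ⟨l', h6, h7⟩ := E11.lemmaZ E11.l2 hR0
        (pieceZ hS hQlie hPt (fun l => tr U (M l)) (fun l => (hM l).2.1) fun l => (hM l).2.2.1)
        (RtL_le (a := a')) (fun j : Fin t.length => t.get j) hc h4 h5
      -- the class of the entries of `N`
      obtain ⟨c, hcN⟩ : ∃ c : Bz, ∀ i j, (Uᴴ * N * U) i j ≠ 0 → qz j = c := by
        by_cases hN0 : ∃ i j, (Uᴴ * N * U) i j ≠ 0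
        · obtain ⟨i0, j0, h8⟩ := hN0
          exact ⟨qz j0, fun i j hij => hNcol i j i0 j0 hij h8⟩
        · push Not at hN0
          exact ⟨qz (t.get ⟨0, by have : t.length = Multiset.card (t : Multiset I) := rfl; omega⟩),
            fun i j hij => absurd (hN0 i j) hij⟩
      refine not_few6N hfew hU2 qz M (fun l => (hM l).1) (fun l => (hM l).2.2.2) hc l' ?_ c ?_ ?_
      · intro x y hxy
        by_contra hne
        refine h5 x y hne ?_
        have h8 := (hqz _ _).1 hxy
        have e : E11.wt h (t.get x) - E11.wt h (t.get y)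
            = E11.wt h (l' x) - E11.wt h (l' y) -
              (E11.wt h (l' x) - E11.wt h (t.get x)) +
              (E11.wt h (l' y) - E11.wt h (t.get y)) := by abel
        rw [e]
        exact QA.add_mem (QA.sub_mem h8 (E11.ZL.q_le (h6 x))) (E11.ZL.q_le (h6 y))
      · intro i hi v hv
        refine hkill {x | qz x = qz i} (fun x y hy => ?_) v ((hM i).2.2.2 hv)
        by_contra h8
        exact hi ((Eq.symm hy).trans (hcN x y h8))
      · have h8 : ∀ l, finrank ℂ (tr U (M l)) ≤ finrank ℂ (M l) := fun l =>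
          (finrank_tr hU2 (M l)).le
        rcases h7 with ⟨x, y, hxy, h9, h10⟩ | ⟨x, h9⟩
        · exact Or.inl ⟨x, y, hxy, h9.trans (h8 _), h10.trans (h8 _)⟩
        · exact Or.inr ⟨x, h9.trans (h8 _)⟩
    refine gn_four C r ?_ h2
    obtain ⟨t, ht, h5⟩ := h2
    have h6 := heven e _ h5
    rw [List.length_map] at h6
    have h7 : Multiset.card v' = t.length := by rw [← ht, Multiset.coe_card]
    obtain ⟨m, hm⟩ := h6
    omega
  have hkU : diagonal k * U = U * diagonal fun j => k (r j) := by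
    ext i j
    rw [Matrix.diagonal_mul, Matrix.mul_diagonal]
    by_cases h0 : U i j = 0
    · simp [h0]
    · rw [hak _ _ (har i j h0), mul_comm]
  have hfix : gT (diagonal fun j => k (r j)) (gT Uᴴ u) = gT Uᴴ u := by
    funext w
    rw [P5e.gT_diag]
    by_cases h0 : gT Uᴴ u w = 0
    · rw [h0, mul_zero]
    · obtain ⟨ε, h6, h7⟩ := hword u hu0 w h0
      have h8 := main ε _ h6 (hnull u hku w h0)
      rw [h7, h8]
      simp
  calc gT (diagonal k) u = gT (diagonal k) (gT U (gT Uᴴ u)) := by rw [hUUH]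
    _ = gT U (gT (diagonal fun j => k (r j)) (gT Uᴴ u)) := by
        rw [← a1.gT_mul, hkU, a1.gT_mul]
    _ = u := by rw [hfix, hUUH]

end Pool.Agent.Lib.MP_361a6f_ag.FL.E.Zn
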