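import Pool.Agent.Lib.MP_361a6f_ag.FL.E.BR.B6
import Pool.Agent.Lib.MP_361a6f_ag.FL.EM.WM
import Pool.Agent.Lib.MP_361a6f_ag.FL.EMB.DefsW

/-!
# Theorem EMB: the assembly (row WN)

The stable subspaces for the system (`StabU`) are the same as the subspaces that are stable under
the Lie algebra of the stabiliser of `s` and the endomorphisms: one inclusion is `R6b`, and the
algebras of the matrices which preserve all members of the two families have the same dimension.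
-/

set_option autoImplicit false
set_option linter.unusedSectionVars false

open Filter Topology

namespace Pool.Agent.Lib.MP_361a6f_ag.FL.E

open BR

namespace Wen

variable {I : Type} [Fintype I] [DecidableEq I]

/-- the matrices that preserve all members of a family of subspaces -/
def al (𝓛 : Set (Submodule ℂ (I → ℂ))) : Submodule ℂ (Matrix I I ℂ) where
  carrier := {A | ∀ U ∈ 𝓛, ∀ v ∈ U, A.mulVec v ∈ U}
  add_mem' {A B} hA hB U hU v hv := by
    rw [Matrix.add_mulVec]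
    exact U.add_mem (hA U hU v hv) (hB U hU v hv)
  zero_mem' U _ v _ := by
    rw [Matrix.zero_mulVec]
    exact U.zero_mem
  smul_mem' c A hA U hU v hv := by
    rw [Matrix.smul_mulVec]
    exact U.smul_mem c (hA U hU v hv)

/-- conjugation as a linear map -/
def cj (x y : Matrix I I ℂ) : Matrix I I ℂ →ₗ[ℂ] Matrix I I ℂ where
  toFun A := x * A * y
  map_add' A B := by rw [mul_add, add_mul]
  map_smul' c A := by rw [mul_smul_comm, smul_mul_assoc, RingHom.id_apply]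

theorem stable_of {𝓛 𝓣 : Set (Submodule ℂ (I → ℂ))} (h1 : 𝓛 ⊆ 𝓣) {x y : Matrix I I ℂ}
    (hxy : x * y = 1) (hyx : y * x = 1)
    (h2 : ∀ W ∈ 𝓣, W.comap (Matrix.toLin' x) ∈ 𝓛) {A : Matrix I I ℂ}
    (hA : ∀ U ∈ 𝓛, ∀ v ∈ U, A.mulVec v ∈ U) : ∀ W ∈ 𝓣, ∀ v ∈ W, A.mulVec v ∈ W := by
  have hle : al 𝓣 ≤ al 𝓛 := fun B hB U hU v hv => hB U (h1 hU) v hv
  have hmap : (al 𝓛).map (cj x y) ≤ al 𝓣 := by
    rintro _ ⟨B, hB, rfl⟩ W hW v hv
    have h3 : y.mulVec v ∈ W.comap (Matrix.toLin' x) := by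
      show Matrix.toLin' x _ ∈ W
      rwa [Matrix.toLin'_apply, Matrix.mulVec_mulVec, hxy, Matrix.one_mulVec]
    have h4 := hB _ (h2 W hW) _ h3
    show (x * B * y).mulVec v ∈ W
    rw [← Matrix.mulVec_mulVec, ← Matrix.mulVec_mulVec]
    exact h4
  have hinj : Function.Injective (cj x y) := by
    intro B C hBC
    have h3 : ∀ M : Matrix I I ℂ, y * (x * M * y) * x = M := by
      intro M
      calc y * (x * M * y) * x = (y * x) * M * (y * x) := by simp only [Matrix.mul_assoc]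
        _ = M := by rw [hyx, Matrix.one_mul, Matrix.mul_one]
    have h4 : x * B * y = x * C * y := hBC
    rw [← h3 B, h4, h3]
  have hfin : Module.finrank ℂ (al 𝓛) ≤ Module.finrank ℂ (al 𝓣) := by
    have h6 : Module.finrank ℂ (al 𝓛) = Module.finrank ℂ ((al 𝓛).map (cj x y)) :=
      LinearEquiv.finrank_eq (Submodule.equivMapOfInjective _ hinj (al 𝓛))
    rw [h6]
    exact Submodule.finrank_mono hmap
  have heq := Submodule.eq_of_le_of_finrank_le hle hfin
  have h5 : A ∈ al 𝓣 := by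
    rw [heq]
    exact hA
  exact h5

end Wen

/-- Row WN. -/
theorem wn : WNStatement := by
  intro w1 w2 r11 f1 p2 p3 g4 g4b I Λ _ _ _ D At Bt l Γ β _ lb b N hE hF hfull hfew L u hu hu0
  obtain ⟨m0, hm0⟩ := f1 D At Bt l Γ lb b hE.toCSys hfull
  obtain ⟨ι, _, len, t, s, x, k, h, ⟨g, hg, hlim⟩, hNs, G, hC, hwd⟩ :=
    w1 D At Bt l Γ lb b hE.toCSys hF (max m0 (max L 2))
  have hm : 2 ≤ max m0 (max L 2) := (le_max_right L 2).trans (le_max_right m0 _)
  have hful := hm0 _ (le_max_left m0 (max L 2)) len t s x k h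
  have hL := h.lvl
  obtain ⟨a, ha, har, haS⟩ := p3 D s l hE.typ_eq hE.odd hE.tau hE.ratio hL.fix
  have com := g4b D At Bt l Γ lb b hE.toCSys _ hm len t s x k h
  obtain ⟨hxi, hx1, hx2⟩ := alg1.G_inv D x hL.grp
  have hCa : Calc D.τ a (fun ε v => G ε v ∧ Even v.length) :=
    Weleven.calc_even (Wfx.calc_congr (fun i j => (ha i j).1) hC)
  have hwe : ∀ i w, s i w ≠ 0 → ∃ ε : ℤˣ, (G ε (List.ofFn w) ∧ Even (List.ofFn w).length) ∧
      ∏ j, k (w j) = (((ε : ℤ) : ℝ) : ℂ) := by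
    intro i w hw
    obtain ⟨ε, h1, h2⟩ := hwd i w hw
    refine ⟨ε, ⟨h1, ?_⟩, h2⟩
    rw [List.length_ofFn]
    by_contra hev
    apply hw
    have h1 : t i = 0 :=
      Six.odd_zero hE.odd (Nat.not_even_iff_odd.1 hev) (hE.sys.even _ _ (hL.mem i))
    have h2 : gT x (s i) = t i := congrFun hL.eq i
    have h3 : s i = gT x⁻¹ (t i) := by rw [← h2, ← alg1.gT_mul, hx2, alg1.gT_one]
    rw [h3, h1, Six.gT_zero]
    rfl
  -- stable subspaces
  have hst0 : ∀ U : Submodule ℂ (I → ℂ), (∀ A ∈ stab D s, ∀ v ∈ U, A.mulVec v ∈ U) →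
      (∀ e ∈ {e | ∃ z, At 2 z ∧ e = opM D z}, ∀ v ∈ U, e.mulVec v ∈ U) →
      StabU D At Γ (U.map (Matrix.toLin' x)) := by
    intro U h1 h2
    exact Hsix.stabU_map hx1 (fun z hz => (com z hz).2.2) (fun z hz => h2 _ ⟨z, hz, rfl⟩)
      (g4 D s (Hsix.conjS Γ x) hL.min
        (Hsix.conjS_fix hL.grp hL.eq hE.grp hE.gfix hL.mem) U h1)
  have hinj : Function.Injective (Matrix.toLin' x) := by
    intro v w hvw
    have h1 := congrArg (Matrix.toLin' x⁻¹) hvw
    rwa [← LinearMap.comp_apply, ← LinearMap.comp_apply, ← Matrix.toLin'_mul, hx2,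
      Matrix.toLin'_one, LinearMap.id_apply, LinearMap.id_apply] at h1
  have hbot : ∀ U : Submodule ℂ (I → ℂ), U.map (Matrix.toLin' x) = ⊥ → U = ⊥ := by
    intro U h1
    rw [eq_bot_iff]
    intro v hv
    have h2 : Matrix.toLin' x v ∈ U.map (Matrix.toLin' x) := ⟨v, hv, rfl⟩
    rw [h1, Submodule.mem_bot] at h2
    rw [Submodule.mem_bot]
    exact hinj (by rw [h2, map_zero])
  have hst : ∀ U : Submodule ℂ (I → ℂ),
      StS (Six.stabS alg1 D s) {e | ∃ z, At 2 z ∧ e = opM D z} U → StabU D At Γ U :=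
    fun U hU => R6b.stable_stabU hE.toCSys hE.h1 hm h hg hlim hU.1 fun z hz => hU.2 _ ⟨z, hz, rfl⟩
  have hback : ∀ U : Submodule ℂ (I → ℂ), StabU D At Γ U →
      StS (Six.stabS alg1 D s) {e | ∃ z, At 2 z ∧ e = opM D z} U := by
    intro U hU
    refine ⟨fun A hA => ?_, ?_⟩
    · refine Wen.stable_of
        (𝓛 := {U | StS (Six.stabS alg1 D s) {e | ∃ z, At 2 z ∧ e = opM D z} U})
        (𝓣 := {U | StabU D At Γ U}) (fun U hU => hst U hU) hx1 hx2 (fun W hW => ⟨?_, ?_⟩)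
        (fun U hU => hU.1 A hA) U hU
      · intro B hB v hv
        show Matrix.toLin' x _ ∈ W
        rw [Matrix.toLin'_apply]
        exact hful W hW B hB v hv
      · rintro _ ⟨z, hz, rfl⟩ v hv
        show Matrix.toLin' x _ ∈ W
        rw [Matrix.toLin'_apply, Matrix.mulVec_mulVec, ← (com z hz).2.2, ← Matrix.mulVec_mulVec]
        exact hW.1 z hz _ hv
    · rintro _ ⟨z, hz, rfl⟩
      exact hU.1 z hz
  have hmin : ∀ U : Submodule ℂ (I → ℂ),
      MinS (Six.stabS alg1 D s) {e | ∃ z, At 2 z ∧ e = opM D z} U → MinStab D At Γ U := by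
    rintro U ⟨h1, h0, h3⟩
    exact ⟨h0, hst U h1, fun W hW hW0 hWs => h3 W hW (hback W hWs) hW0⟩
  have hNS : N ∈ stab D s := ⟨hE.nlie, hNs N (fun i j hij => by
    obtain ⟨h1, h2⟩ := B6.one_of hE.tau hE.nlie hE.nl hij
    rw [h1, h2]) hE.nfix⟩
  have hr := r11 (Six.stabS alg1 D s) {e | ∃ z, At 2 z ∧ e = opM D z} (Psi D)
    (fun A hA B hB => Six.stab_br alg1 hA hB) (p2 D s hL.min)
    (by
      rintro _ ⟨z, hz, rfl⟩ A hA
      exact (com z hz).1 A hA)
    (by
      rintro _ ⟨z, hz, rfl⟩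
      exact Wem.adj hE.sys hE.odd hz)
    (fun A hA => hA.1.2) Hsix.psi_unit (Weleven.psi_transpose hE.odd) a har haS k
    (fun i j hij => h.blk i j ((ha i j).1 hij)) D.τ (fun ε v => G ε v ∧ Even v.length) D.τ_τ
    (Wfx.a_tau haS.1) hCa (fun ε v hv => hv.2)
    (w2 D s a (fun ε v => G ε v ∧ Even v.length) hCa fun i w hw => by
      obtain ⟨ε, hε, -⟩ := hwe i w hw
      exact ⟨ε, hε⟩)
    (by
      intro U h1 h2 h3
      have h4 := hE.h1 (U.map (Matrix.toLin' x)) (hst0 U h1 h2) (by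
        rintro _ ⟨v, hv, rfl⟩ _ ⟨w, hw, rfl⟩
        rw [Matrix.toLin'_apply, Matrix.toLin'_apply, Hsix.psi_map hL.grp]
        exact h3 v hv w hw)
      exact hbot U h4)
    N hNS hE.n2 (B6.diag_mul hE.tau hE.nlie hE.nl ha haS.1)
    (fun U hU hind hN => hfew U (fun i => hmin _ (hU i)) hind hN)
  have hLm : L ≤ max m0 (max L 2) := (le_max_left L 2).trans (le_max_right m0 _)
  refine Six.pos_of alg1 hE.sys (hE.nd L) hL.grp
    (T := {v : Ten I L | ∃ i, ∃ h : len i = L, v = h ▸ t i}) ?_ (hL.span L hLm) ?_ u hu hu0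
  · rintro _ ⟨i, rfl, rfl⟩
    exact hL.mem i
  · rintro _ ⟨i, rfl, rfl⟩
    have h1 : gT x (s i) = t i := congrFun hL.eq i
    have h0 : gT x⁻¹ (t i) = s i := by rw [← h1, ← alg1.gT_mul, hx2, alg1.gT_one]
    have h3 : gT (Matrix.diagonal k) (s i) = s i :=
      hr (len i) (s i) (fun A hA => congrFun hA.2 i) (hwe i)
    have h2 : jT D (s i) = s i := (congrFun hL.key i).symm.trans h3
    change gT x (jT D (gT x⁻¹ (t i))) = t i
    rw [h0, h2, h1]

end Pool.Agent.Lib.MP_361a6f_ag.FL.E
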