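import Pool.Agent.Lib.MP_361a6f_ag.FL.E11.Em

/-!
# Theorem EMB: the counting lemma modulo the roots of a subsystem

As `lemmaEM32`, but the sum of the weights and the differences of the weights are only known modulo
the real span of a set of roots.
-/

open scoped InnerProductSpace

namespace Pool.Agent.Lib.MP_361a6f_ag.FL.E11

/-- `W l` is the set of the weights of the piece of the letter `l`, `pd l` its dimension. -/
structure PieceZ {E : Type*} [NormedAddCommGroup E] [InnerProductSpace ℝ E] {I : Type*}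
    (T : I → E) (Φ : Set E) (W : I → Set E) (pd : I → ℕ) : Prop where
  self : ∀ l, T l ∈ W l
  wt : ∀ l, ∀ v ∈ W l, ∃ m, T m = v
  neg : ∀ l, ∀ v ∈ W l, -v ∈ W l
  mov : ∀ l, ∀ v ∈ W l, ∀ a ∈ Φ, 0 < ⟪v, a⟫_ℝ → v - a ∈ W l
  card : ∀ l, ∀ F : Finset E, (∀ v ∈ F, v ∈ W l) → F.card ≤ pd l
  par : ∀ l, ∀ v ∈ W l, ∀ N : Finset E, Even N.card → (∀ b ∈ N, b ∈ Φ) →
    (∀ b ∈ N, ∀ c ∈ N, b ≠ c → ⟪b, c⟫_ℝ = 0 ∧ b + c ∉ Φ) → v + v = ∑ b ∈ N, b →
    2 ^ (N.card + 1) ≤ pd l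

namespace ZL

variable {E : Type*} [NormedAddCommGroup E] [InnerProductSpace ℝ E] {I : Type*}
  {T : I → E} {Φ : Set E} {W : I → Set E} {pd : I → ℕ}

theorem pieceSit (h : RootSit0 T Φ) (hW : PieceZ T Φ W pd) : PieceSit T Φ W pd := by
  classical
  refine ⟨hW.self, hW.neg, hW.mov, hW.card, fun l b hb c hc hbc h2 h3 => ?_⟩
  have hne : b ≠ c := by
    rintro rfl
    exact h.zero ((inner_self_eq_zero.1 hbc) ▸ hb)
  have hcb : ⟪c, b⟫_ℝ = 0 := by rw [real_inner_comm]; exact hbc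
  have hs : b + c ∉ Φ := by rw [← h2]; exact h3
  have h4 := hW.par l (T l) (hW.self l) {b, c} (by rw [Finset.card_pair hne]; exact ⟨1, rfl⟩)
    (by
      intro x hx
      simp only [Finset.mem_insert, Finset.mem_singleton] at hx
      rcases hx with hx | hx
      · rw [hx]; exact hb
      · rw [hx]; exact hc)
    (by
      intro x hx y hy hxy
      simp only [Finset.mem_insert, Finset.mem_singleton] at hx hy
      rcases hx with hx | hx <;> rcases hy with hy | hy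
      · exact absurd (hx.trans hy.symm) hxy
      · rw [hx, hy]; exact ⟨hbc, hs⟩
      · rw [hx, hy, add_comm]; exact ⟨hcb, hs⟩
      · exact absurd (hx.trans hy.symm) hxy)
    (by rw [Finset.sum_pair hne]; exact h2)
  rw [Finset.card_pair hne] at h4
  exact h4

/-- Cartan integers -/
theorem cartan (h : RootSit0 T Φ) {x r : E} (hx : x ∈ Φ) (hr : r ∈ Φ) :
    ∃ k : ℤ, 2 * ⟪x, r⟫_ℝ = k * ⟪r, r⟫_ℝ := by
  obtain ⟨i, j, hij⟩ := h.dif x hx
  obtain ⟨ni, hi⟩ := h.int i r hr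
  obtain ⟨nj, hj⟩ := h.int j r hr
  refine ⟨ni - nj, ?_⟩
  rw [hij, inner_sub_left]
  push_cast
  linarith

/-- every root is in the span of the roots not orthogonal to `r`, or orthogonal to them -/
theorem comp_or (h : RootSit0 T Φ) {r x : E} (hx : x ∈ Φ) :
    x ∈ Submodule.span ℝ {y | y ∈ Φ ∧ ⟪y, r⟫_ℝ ≠ 0} ∨
      ∀ y ∈ Φ, ⟪y, r⟫_ℝ ≠ 0 → ⟪x, y⟫_ℝ = 0 := by
  by_contra hc
  push Not at hc
  obtain ⟨h1, y, hy, hyr, hxy⟩ := hc
  apply h1
  by_cases hxr : ⟪x, r⟫_ℝ = 0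
  · -- a root `y'` with negative product with `x`
    obtain ⟨y', hy', hyr', hxy'⟩ : ∃ y' ∈ Φ, ⟪y', r⟫_ℝ ≠ 0 ∧ ⟪x, y'⟫_ℝ < 0 := by
      rcases lt_or_gt_of_ne hxy with h2 | h2
      · exact ⟨y, hy, hyr, h2⟩
      · exact ⟨-y, h.neg y hy, by rw [inner_neg_left]; exact neg_ne_zero.2 hyr, by
          rw [inner_neg_right]; linarith⟩
    rcases h.add x hx y' hy' hxy' with h2 | h2
    · have h3 : x + y' ∈ Submodule.span ℝ {y | y ∈ Φ ∧ ⟪y, r⟫_ℝ ≠ 0} :=
        Submodule.subset_span ⟨h2, by rw [inner_add_left, hxr, zero_add]; exact hyr'⟩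
      have h4 : y' ∈ Submodule.span ℝ {y | y ∈ Φ ∧ ⟪y, r⟫_ℝ ≠ 0} :=
        Submodule.subset_span ⟨hy', hyr'⟩
      have h5 := Submodule.sub_mem _ h3 h4
      rwa [add_sub_cancel_right] at h5
    · exfalso
      have h3 : ⟪x + y', r⟫_ℝ = 0 := by rw [h2, inner_zero_left]
      rw [inner_add_left, hxr, zero_add] at h3
      exact hyr' h3
  · exact Submodule.subset_span ⟨hx, hxr⟩

/-- the group `Q + A` -/
def QA (Φ ΦL : Set E) : AddSubgroup E :=
  AddSubgroup.closure Φ ⊔ (Submodule.span ℝ ΦL).toAddSubgroup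

theorem q_le {Φ ΦL : Set E} : AddSubgroup.closure Φ ≤ QA Φ ΦL := le_sup_left

/-- the splitting of the elements of `Q + A` -/
theorem split (h : RootSit0 T Φ) {ΦL : Set E} (hΦL : ΦL ⊆ Φ) (r : E) :
    ∀ x ∈ QA Φ ΦL, ∃ y ∈ QA Φ ΦL,
      y ∈ Submodule.span ℝ {y | y ∈ Φ ∧ ⟪y, r⟫_ℝ ≠ 0} ∧
      ∀ w ∈ Φ, ⟪w, r⟫_ℝ ≠ 0 → ⟪x - y, w⟫_ℝ = 0 := by
  have hadd : ∀ x x' : E,
      (∃ y ∈ QA Φ ΦL, y ∈ Submodule.span ℝ {y | y ∈ Φ ∧ ⟪y, r⟫_ℝ ≠ 0} ∧
        ∀ w ∈ Φ, ⟪w, r⟫_ℝ ≠ 0 → ⟪x - y, w⟫_ℝ = 0) →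
      (∃ y ∈ QA Φ ΦL, y ∈ Submodule.span ℝ {y | y ∈ Φ ∧ ⟪y, r⟫_ℝ ≠ 0} ∧
        ∀ w ∈ Φ, ⟪w, r⟫_ℝ ≠ 0 → ⟪x' - y, w⟫_ℝ = 0) →
      ∃ y ∈ QA Φ ΦL, y ∈ Submodule.span ℝ {y | y ∈ Φ ∧ ⟪y, r⟫_ℝ ≠ 0} ∧
        ∀ w ∈ Φ, ⟪w, r⟫_ℝ ≠ 0 → ⟪x + x' - y, w⟫_ℝ = 0 := by
    rintro x x' ⟨y, h1, h2, h3⟩ ⟨y', h1', h2', h3'⟩
    refine ⟨y + y', add_mem h1 h1', Submodule.add_mem _ h2 h2', fun w hw hwr => ?_⟩
    have e : x + x' - (y + y') = (x - y) + (x' - y') := by abel
    rw [e, inner_add_left, h3 w hw hwr, h3' w hw hwr, add_zero]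
  have hq : ∀ x ∈ AddSubgroup.closure Φ, ∃ y ∈ QA Φ ΦL,
      y ∈ Submodule.span ℝ {y | y ∈ Φ ∧ ⟪y, r⟫_ℝ ≠ 0} ∧
        ∀ w ∈ Φ, ⟪w, r⟫_ℝ ≠ 0 → ⟪x - y, w⟫_ℝ = 0 := by
    intro x hx
    induction hx using AddSubgroup.closure_induction with
    | mem x hx =>
      rcases comp_or h (r := r) hx with h1 | h1
      · exact ⟨x, q_le (AddSubgroup.subset_closure hx), h1, fun w _ _ => by
          rw [sub_self, inner_zero_left]⟩
      · exact ⟨0, zero_mem _, Submodule.zero_mem _, fun w hw hwr => by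
          rw [sub_zero]; exact h1 w hw hwr⟩
    | zero =>
      exact ⟨0, zero_mem _, Submodule.zero_mem _, fun w _ _ => by rw [sub_zero, inner_zero_left]⟩
    | add x x' _ _ ih ih' => exact hadd x x' ih ih'
    | neg x _ ih =>
      obtain ⟨y, h1, h2, h3⟩ := ih
      refine ⟨-y, neg_mem h1, Submodule.neg_mem _ h2, fun w hw hwr => ?_⟩
      have e : -x - -y = -(x - y) := by abel
      rw [e, inner_neg_left, h3 w hw hwr, neg_zero]
  have ha : ∀ x ∈ Submodule.span ℝ ΦL, ∃ y ∈ Submodule.span ℝ ΦL,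
      y ∈ Submodule.span ℝ {y | y ∈ Φ ∧ ⟪y, r⟫_ℝ ≠ 0} ∧
        ∀ w ∈ Φ, ⟪w, r⟫_ℝ ≠ 0 → ⟪x - y, w⟫_ℝ = 0 := by
    intro x hx
    induction hx using Submodule.span_induction with
    | mem x hx =>
      rcases comp_or h (r := r) (hΦL hx) with h1 | h1
      · exact ⟨x, Submodule.subset_span hx, h1, fun w _ _ => by
          rw [sub_self, inner_zero_left]⟩
      · exact ⟨0, Submodule.zero_mem _, Submodule.zero_mem _, fun w hw hwr => by
          rw [sub_zero]; exact h1 w hw hwr⟩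
    | zero =>
      exact ⟨0, Submodule.zero_mem _, Submodule.zero_mem _, fun w _ _ => by
        rw [sub_zero, inner_zero_left]⟩
    | add x x' _ _ ih ih' =>
      obtain ⟨y, h1, h2, h3⟩ := ih
      obtain ⟨y', h1', h2', h3'⟩ := ih'
      refine ⟨y + y', Submodule.add_mem _ h1 h1', Submodule.add_mem _ h2 h2',
        fun w hw hwr => ?_⟩
      have e : x + x' - (y + y') = (x - y) + (x' - y') := by abel
      rw [e, inner_add_left, h3 w hw hwr, h3' w hw hwr, add_zero]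
    | smul c x _ ih =>
      obtain ⟨y, h1, h2, h3⟩ := ih
      refine ⟨c • y, Submodule.smul_mem _ _ h1, Submodule.smul_mem _ _ h2,
        fun w hw hwr => ?_⟩
      rw [← smul_sub, inner_smul_left, h3 w hw hwr, mul_zero]
  intro x hx
  obtain ⟨q, hqm, s, hs, rfl⟩ := AddSubgroup.mem_sup.1 hx
  refine hadd q s (hq q hqm) ?_
  obtain ⟨y, h1, h2, h3⟩ := ha s hs
  exact ⟨y, (le_sup_right : (Submodule.span ℝ ΦL).toAddSubgroup ≤ QA Φ ΦL) h1, h2, h3⟩

/-- a vector in the span of a set and orthogonal to the set is zero -/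
theorem eq_zero_of_span {s : Set E} {x : E} (hx : x ∈ Submodule.span ℝ s)
    (h : ∀ w ∈ s, ⟪x, w⟫_ℝ = 0) : x = 0 := by
  have h1 : ∀ w ∈ Submodule.span ℝ s, ⟪x, w⟫_ℝ = 0 := by
    intro w hw
    induction hw using Submodule.span_induction with
    | mem w hw => exact h w hw
    | zero => rw [inner_zero_right]
    | add w w' _ _ ih ih' => rw [inner_add_right, ih, ih', add_zero]
    | smul c w _ ih => rw [inner_smul_right, ih, mul_zero]
  exact inner_self_eq_zero.1 (h1 x hx)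

theorem nrm_le {x a b : E} {n n' : ℝ} (hn : n * n = 1) (hn' : n' * n' = 1) (hab : ⟪a, b⟫_ℝ = 0)
    (ha : ⟪x, a⟫_ℝ = n * ⟪x, x⟫_ℝ) (hb : ⟪x, b⟫_ℝ = n' * ⟪x, x⟫_ℝ)
    (ha2 : ⟪a, a⟫_ℝ ≤ 2 * ⟪x, x⟫_ℝ) (hb2 : ⟪b, b⟫_ℝ ≤ 2 * ⟪x, x⟫_ℝ) :
    (2 : ℝ) • x - (n • a + n' • b) = 0 := by
  have hba : ⟪b, a⟫_ℝ = 0 := by rw [real_inner_comm]; exact hab
  have ha' : ⟪a, x⟫_ℝ = n * ⟪x, x⟫_ℝ := by rw [real_inner_comm]; exact ha
  have hb' : ⟪b, x⟫_ℝ = n' * ⟪x, x⟫_ℝ := by rw [real_inner_comm]; exact hb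
  have e : ⟪(2 : ℝ) • x - (n • a + n' • b), (2 : ℝ) • x - (n • a + n' • b)⟫_ℝ =
      4 * ⟪x, x⟫_ℝ - 4 * (n * n) * ⟪x, x⟫_ℝ - 4 * (n' * n') * ⟪x, x⟫_ℝ + n * n * ⟪a, a⟫_ℝ +
        n' * n' * ⟪b, b⟫_ℝ := by
    simp only [inner_sub_left, inner_sub_right, inner_add_left, inner_add_right,
      inner_smul_left, inner_smul_right, conj_trivial, hab, hba, ha, ha', hb, hb']
    ring
  refine inner_self_eq_zero.1 (le_antisymm ?_ real_inner_self_nonneg)
  rw [e, hn, hn']
  linarith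

/-- two half roots in different classes: their roots are orthogonal, and no root is non-orthogonal
to both -/
theorem excl (h : RootSit0 T Φ) {i j : I} (hi : T i + T i ∈ Φ) (hj : T j + T j ∈ Φ)
    (mi : ∀ x ∈ Φ, |2 * ⟪T i, x⟫_ℝ| ≤ ⟪x, x⟫_ℝ) (mj : ∀ x ∈ Φ, |2 * ⟪T j, x⟫_ℝ| ≤ ⟪x, x⟫_ℝ)
    (hd : T i - T j ∉ AddSubgroup.closure Φ) :
    ⟪T i + T i, T j + T j⟫_ℝ = 0 ∧
      ∀ x ∈ Φ, ⟪x, T i + T i⟫_ℝ ≠ 0 → ⟪x, T j + T j⟫_ℝ ≠ 0 → False := by
  set Q := AddSubgroup.closure Φ with hQ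
  have hi0 : T i + T i ≠ 0 := fun h' => h.zero (h' ▸ hi)
  have hj0 : T j + T j ≠ 0 := fun h' => h.zero (h' ▸ hj)
  have hpos : ∀ {x : E}, x ∈ Φ → 0 < ⟪x, x⟫_ℝ := fun {x} hx =>
    real_inner_self_pos.2 fun h' => h.zero (h' ▸ hx)
  have hsum : T i + T j ∉ Q := by
    intro h'
    apply hd
    have e : T i - T j = T i + T j - (T j + T j) := by abel
    rw [e]
    exact sub_mem h' (h.two j)
  have horth : ⟪T i + T i, T j + T j⟫_ℝ = 0 := by
    obtain ⟨n, hn⟩ := h.int i _ hj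
    obtain ⟨n', hn'⟩ := h.int j _ hi
    have e1 : 2 * ⟪T i, T j + T j⟫_ℝ = ⟪T i + T i, T j + T j⟫_ℝ := by
      rw [inner_add_left]
      ring
    have e2 : 2 * ⟪T j, T i + T i⟫_ℝ = ⟪T i + T i, T j + T j⟫_ℝ := by
      rw [real_inner_comm (T j + T j) (T i + T i), inner_add_left (T j) (T j)]
      ring
    have m1 := mi _ hj
    have m2 := mj _ hi
    rw [e1] at hn m1
    rw [e2] at hn' m2
    rcases EM.orth hi0 hj0 hn hn' m1 m2 with h1 | h1 | h1
    · exact h1
    · exfalso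
      apply hd
      have h2 : (2 : ℝ) • (T i - T j) = 0 := by
        rw [two_smul]
        have e : T i - T j + (T i - T j) = T i + T i - (T j + T j) := by abel
        rw [e, h1, sub_self]
      rw [(smul_eq_zero.1 h2).resolve_left two_ne_zero]
      exact Q.zero_mem
    · exfalso
      apply hsum
      have h2 : (2 : ℝ) • (T i + T j) = 0 := by
        rw [two_smul]
        have e : T i + T j + (T i + T j) = T i + T i + (T j + T j) := by abel
        rw [e, h1, neg_add_cancel]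
      rw [(smul_eq_zero.1 h2).resolve_left two_ne_zero]
      exact Q.zero_mem
  refine ⟨horth, fun x hx hxi hxj => ?_⟩
  have hxx := hpos hx
  -- the numbers
  have key : ∀ m : I, T m + T m ∈ Φ → (∀ x ∈ Φ, |2 * ⟪T m, x⟫_ℝ| ≤ ⟪x, x⟫_ℝ) →
      ⟪x, T m + T m⟫_ℝ ≠ 0 → ∃ n : ℤ, (n = 1 ∨ n = -1) ∧ ⟪x, T m + T m⟫_ℝ = n * ⟪x, x⟫_ℝ ∧
        ⟪T m + T m, T m + T m⟫_ℝ ≤ 2 * ⟪x, x⟫_ℝ := by
    intro m hm mm hne
    obtain ⟨n, hn⟩ := h.int m x hx
    have e1 : 2 * ⟪T m, x⟫_ℝ = ⟪x, T m + T m⟫_ℝ := by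
      rw [real_inner_comm (T m + T m) x, inner_add_left]
      ring
    have m1 := mm x hx
    rw [e1] at hn m1
    have hn0 : n ≠ 0 := by
      rintro rfl
      exact hne (by rw [hn]; simp)
    have hn1 : |n| ≤ 1 := by
      rw [hn, abs_mul, abs_of_pos hxx] at m1
      have h2 : |(n : ℝ)| ≤ 1 := by
        by_contra h3
        push Not at h3
        nlinarith
      exact_mod_cast h2
    have hn2 : n = 1 ∨ n = -1 := by
      have := abs_le.1 hn1
      omega
    refine ⟨n, hn2, hn, ?_⟩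
    obtain ⟨k, hk⟩ := cartan h hx hm
    have hmm := hpos hm
    have hk0 : k ≠ 0 := by
      rintro rfl
      apply hne
      have h2 : 2 * ⟪x, T m + T m⟫_ℝ = 0 := by rw [hk]; simp
      linarith
    have hk1 : (1 : ℝ) ≤ |(k : ℝ)| := by
      have := Int.one_le_abs hk0
      exact_mod_cast this
    have h2 : |2 * ⟪x, T m + T m⟫_ℝ| = 2 * ⟪x, x⟫_ℝ := by
      rw [hn]
      rcases hn2 with rfl | rfl
      · push_cast
        rw [one_mul, abs_of_pos (by linarith)]
      · push_cast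
        rw [neg_mul, one_mul, mul_neg, abs_neg, abs_of_pos (by linarith)]
    rw [← h2, hk, abs_mul, abs_of_pos hmm]
    exact le_mul_of_one_le_left hmm.le hk1
  obtain ⟨n, hn, hn1, hn2⟩ := key i hi mi hxi
  obtain ⟨n', hn', hn1', hn2'⟩ := key j hj mj hxj
  have hnn : (n : ℝ) * n = 1 := by rcases hn with rfl | rfl <;> norm_num
  have hnn' : (n' : ℝ) * n' = 1 := by rcases hn' with rfl | rfl <;> norm_num
  have hy0 : (2 : ℝ) • x - ((n : ℝ) • (T i + T i) + (n' : ℝ) • (T j + T j)) = 0 :=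
    nrm_le hnn hnn' horth hn1 hn1' hn2 hn2'
  have hx2 : x = (n : ℝ) • T i + (n' : ℝ) • T j := by
    have h2 : (2 : ℝ) • (x - ((n : ℝ) • T i + (n' : ℝ) • T j)) = 0 := by
      rw [← hy0]
      module
    exact sub_eq_zero.1 ((smul_eq_zero.1 h2).resolve_left two_ne_zero)
  have hxQ : x ∈ Q := AddSubgroup.subset_closure hx
  apply hsum
  rcases hn with rfl | rfl <;> rcases hn' with rfl | rfl
  · have e : T i + T j = x := by rw [hx2]; push_cast; module
    rw [e]; exact hxQ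
  · have e : T i + T j = x + (T j + T j) := by rw [hx2]; push_cast; module
    rw [e]; exact add_mem hxQ (h.two j)
  · have e : T i + T j = x + (T i + T i) := by rw [hx2]; push_cast; module
    rw [e]; exact add_mem hxQ (h.two i)
  · have e : T i + T j = -x := by rw [hx2]; push_cast; module
    rw [e]; exact neg_mem hxQ

end ZL

open ZL in
/-- **The counting lemma modulo the span of a set of roots.** -/
theorem lemmaZ.{u, v} (hL2 : L2Statement.{u}) {E : Type u} [NormedAddCommGroup E]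
    [InnerProductSpace ℝ E] {I : Type v} [Finite I] {T : I → E} {Φ : Set E} {W : I → Set E}
    {pd : I → ℕ} (H : RootSit0 T Φ) (hW : PieceZ T Φ W pd) {ΦL : Set E} (hΦL : ΦL ⊆ Φ) {L : ℕ}
    (l₀ : Fin L → I) (hL : 6 ≤ L) (hsum₀ : ∑ a, T (l₀ a) ∈ QA Φ ΦL)
    (hdist₀ : ∀ a b, a ≠ b → T (l₀ a) - T (l₀ b) ∉ QA Φ ΦL) :
    ∃ l' : Fin L → I, (∀ a, T (l' a) - T (l₀ a) ∈ AddSubgroup.closure Φ) ∧
      ((∃ a b, a ≠ b ∧ 8 ≤ pd (l' a) ∧ 8 ≤ pd (l' b)) ∨ ∃ a, 32 ≤ pd (l' a)) := by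
  classical
  set Q := AddSubgroup.closure Φ with hQ
  have hpos : ∀ {x : E}, x ∈ Φ → 0 < ⟪x, x⟫_ℝ := fun {x} hx =>
    real_inner_self_pos.2 fun h' => H.zero (h' ▸ hx)
  have hΦQ : ∀ {x : E}, x ∈ Φ → x ∈ Q := fun {x} hx => AddSubgroup.subset_closure hx
  -- every letter is of minimal norm in its class
  have hex : ∀ a, ∃ m, T m - T (l₀ a) ∈ Q ∧
      ∀ m', T m' - T (l₀ a) ∈ Q → ⟪T m, T m⟫_ℝ ≤ ⟪T m', T m'⟫_ℝ := by
    intro a
    have hne : Nonempty {m : I // T m - T (l₀ a) ∈ Q} :=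
      ⟨⟨l₀ a, by rw [sub_self]; exact Q.zero_mem⟩⟩
    obtain ⟨⟨m, hm⟩, hmin⟩ := Finite.exists_min
      (fun m : {m : I // T m - T (l₀ a) ∈ Q} => ⟪T m.1, T m.1⟫_ℝ)
    exact ⟨m, hm, fun m' hm' => hmin ⟨m', hm'⟩⟩
  choose l hcl hnm using hex
  refine ⟨l, hcl, ?_⟩
  -- weights of a piece with the minimal norm
  let P : Fin L → E → Prop := fun a v =>
    v ∈ W (l a) ∧ v - T (l a) ∈ Q ∧ ⟪v, v⟫_ℝ = ⟪T (l a), T (l a)⟫_ℝ
  have hP0 : ∀ a, P a (T (l a)) := fun a =>
    ⟨hW.self (l a), by rw [sub_self]; exact Q.zero_mem, rfl⟩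
  have hPle : ∀ a v, P a v → ∀ x ∈ Φ, 2 * ⟪v, x⟫_ℝ ≤ ⟪x, x⟫_ℝ := by
    intro a v hv x hx
    by_contra hc
    push Not at hc
    have hxx := hpos hx
    have h1 := hW.mov (l a) v hv.1 x hx (by linarith)
    obtain ⟨m, hm⟩ := hW.wt (l a) _ h1
    have h2 : T m - T (l₀ a) ∈ Q := by
      have e : T m - T (l₀ a) = (v - T (l a)) + (T (l a) - T (l₀ a)) - x := by
        rw [hm]; abel
      rw [e]
      exact sub_mem (add_mem hv.2.1 (hcl a)) (hΦQ hx)
    have h3 := hnm a m h2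
    rw [← hv.2.2, hm, inner_sub_left, inner_sub_right, inner_sub_right,
      real_inner_comm v x] at h3
    linarith
  have hPabs : ∀ a v, P a v → ∀ x ∈ Φ, |2 * ⟪v, x⟫_ℝ| ≤ ⟪x, x⟫_ℝ := by
    intro a v hv x hx
    rw [abs_le]
    constructor
    · have h1 := hPle a v hv (-x) (H.neg x hx)
      rw [inner_neg_right, inner_neg_neg] at h1
      linarith
    · exact hPle a v hv x hx
  have hint : ∀ a v, P a v → ∀ x ∈ Φ, ⟪v, x⟫_ℝ ≠ 0 → |2 * ⟪v, x⟫_ℝ| = ⟪x, x⟫_ℝ := by
    intro a v hv x hx h0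
    refine le_antisymm (hPabs a v hv x hx) ?_
    obtain ⟨m, hm⟩ := hW.wt (l a) v hv.1
    obtain ⟨n, hn⟩ := H.int m x hx
    rw [hm] at hn
    have hxx := hpos hx
    have hn0 : n ≠ 0 := by
      rintro rfl
      apply h0
      have h2 : 2 * ⟪v, x⟫_ℝ = 0 := by rw [hn]; simp
      linarith
    have h1 : (1 : ℝ) ≤ |(n : ℝ)| := by
      have := Int.one_le_abs hn0
      exact_mod_cast this
    rw [hn, abs_mul, abs_of_pos hxx]
    exact le_mul_of_one_le_left hxx.le h1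
  have hmin : ∀ a, ∀ x ∈ Φ, |2 * ⟪T (l a), x⟫_ℝ| ≤ ⟪x, x⟫_ℝ := fun a => hPabs a _ (hP0 a)
  have hdist : ∀ a b, a ≠ b → T (l a) - T (l b) ∉ QA Φ ΦL := by
    intro a b hab hm
    refine hdist₀ a b hab ?_
    have e : T (l₀ a) - T (l₀ b) = -(T (l a) - T (l₀ a)) + (T (l a) - T (l b))
        + (T (l b) - T (l₀ b)) := by abel
    rw [e]
    exact add_mem (add_mem (neg_mem (q_le (hcl a))) hm) (q_le (hcl b))
  have hdistQ : ∀ a b, a ≠ b → T (l a) - T (l b) ∉ Q := fun a b hab h1 =>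
    hdist a b hab (q_le h1)
  have hsum : ∑ a, T (l a) ∈ QA Φ ΦL := by
    have e : ∑ a, T (l a) = ∑ a, (T (l a) - T (l₀ a)) + ∑ a, T (l₀ a) := by
      rw [Finset.sum_sub_distrib]; abel
    rw [e]
    exact add_mem (q_le (sum_mem fun a _ => hcl a)) hsum₀
  by_cases hbig : ∃ a b, a ≠ b ∧ 8 ≤ pd (l a) ∧ 8 ≤ pd (l b)
  · exact Or.inl hbig
  right
  push Not at hbig
  obtain ⟨z, hz⟩ : ∃ z, ∀ a, a ≠ z → pd (l a) < 8 := by
    by_cases hb : ∃ z, 8 ≤ pd (l z)
    · obtain ⟨z, hz⟩ := hb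
      exact ⟨z, fun a ha => hbig z a (Ne.symm ha) hz⟩
    · push Not at hb
      exact ⟨⟨0, by omega⟩, fun a _ => hb a⟩
  refine ⟨z, ?_⟩
  have hB : ∀ a, a ≠ z → T (l a) = 0 ∨ T (l a) + T (l a) ∈ Φ := fun a ha =>
    EM.step2 H (pieceSit H hW) (hL2 Φ H.zero H.neg H.add)
      (fun x hx => (le_abs_self _).trans (hmin a x hx)) (hz a ha)
  set r : Fin L → E := fun a => T (l a) + T (l a) with hr
  -- two half roots
  have hex2 : ∀ a b, a ≠ b → r a ∈ Φ → r b ∈ Φ → ⟪r a, r b⟫_ℝ = 0 ∧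
      ∀ x ∈ Φ, ⟪x, r a⟫_ℝ ≠ 0 → ⟪x, r b⟫_ℝ ≠ 0 → False := fun a b hab ha hb =>
    excl H ha hb (hmin a) (hmin b) (hdistQ a b hab)
  set N : Finset (Fin L) := Finset.univ.filter (fun a => a ≠ z ∧ T (l a) ∉ QA Φ ΦL) with hN
  have hNmem : ∀ a, a ∈ N ↔ a ≠ z ∧ T (l a) ∉ QA Φ ΦL := fun a => by simp [hN]
  have hNΦ : ∀ a ∈ N, r a ∈ Φ := by
    intro a ha
    have h1 := (hNmem a).1 ha
    rcases hB a h1.1 with h2 | h2
    · exact absurd (h2 ▸ (QA Φ ΦL).zero_mem) h1.2
    · exact h2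
  have hNcard : 4 ≤ N.card := by
    set Z : Finset (Fin L) := Finset.univ.filter (fun a => T (l a) ∈ QA Φ ΦL) with hZ
    have hZ1 : Z.card ≤ 1 := by
      rw [Finset.card_le_one]
      intro a ha b hb
      by_contra hab
      rw [hZ, Finset.mem_filter] at ha hb
      exact hdist a b hab (sub_mem ha.2 hb.2)
    have hsub : (Finset.univ : Finset (Fin L)) ⊆ insert z (Z ∪ N) := by
      intro a _
      by_cases h1 : a = z
      · simp [h1]
      · by_cases h2 : T (l a) ∈ QA Φ ΦL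
        · simp [hZ, h2]
        · refine Finset.mem_insert_of_mem (Finset.mem_union_right _ ((hNmem a).2 ⟨h1, h2⟩))
    have h1 := Finset.card_le_card hsub
    have h2 := Finset.card_insert_le z (Z ∪ N)
    have h3 := Finset.card_union_le Z N
    rw [Finset.card_univ, Fintype.card_fin] at h1
    omega
  -- a weight of the piece of `z` is not orthogonal to the component of `r b`
  have hreach : ∀ v, P z v → ∀ b ∈ N, ∃ x ∈ Φ, ⟪x, r b⟫_ℝ ≠ 0 ∧ ⟪v, x⟫_ℝ ≠ 0 := by
    intro v hv b hb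
    by_contra hc
    push Not at hc
    have hbz := (hNmem b).1 hb
    obtain ⟨y, hy1, hy2, hy3⟩ := split H hΦL (r b) (∑ a, T (l a) + (v - T (l z)))
      (add_mem hsum (q_le hv.2.1))
    -- the other letters are orthogonal to the component
    have horth : ∀ w ∈ Φ, ⟪w, r b⟫_ℝ ≠ 0 →
        ⟪∑ a, T (l a) + (v - T (l z)) - T (l b), w⟫_ℝ = 0 := by
      intro w hw hwb
      have h1 : ∀ a, a ≠ z → a ≠ b → ⟪T (l a), w⟫_ℝ = 0 := by
        intro a haz hab
        rcases hB a haz with h2 | h2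
        · rw [h2, inner_zero_left]
        · by_contra h3
          refine (hex2 a b hab h2 (hNΦ b hb)).2 w hw ?_ hwb
          intro h4
          apply h3
          have h5 : ⟪w, T (l a) + T (l a)⟫_ℝ = 0 := h4
          rw [real_inner_comm, inner_add_left] at h5
          linarith
      have h2 : ∑ a, T (l a) = T (l z) + (T (l b) +
          ∑ a ∈ (Finset.univ.erase z).erase b, T (l a)) := by
        rw [Finset.add_sum_erase _ (fun a => T (l a))
          (Finset.mem_erase.2 ⟨hbz.1, Finset.mem_univ b⟩),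
          Finset.add_sum_erase _ (fun a => T (l a)) (Finset.mem_univ z)]
      have e : ∑ a, T (l a) + (v - T (l z)) - T (l b) =
          v + ∑ a ∈ (Finset.univ.erase z).erase b, T (l a) := by
        rw [h2]; abel
      rw [e, inner_add_left, hc w hw hwb, zero_add, sum_inner]
      refine Finset.sum_eq_zero fun a ha => ?_
      rw [Finset.mem_erase, Finset.mem_erase] at ha
      exact h1 a ha.2.1 ha.1
    have hbb : ⟪r b, r b⟫_ℝ ≠ 0 := (hpos (hNΦ b hb)).ne'
    have hTb : T (l b) ∈ Submodule.span ℝ {y | y ∈ Φ ∧ ⟪y, r b⟫_ℝ ≠ 0} := by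
      have h1 : r b ∈ Submodule.span ℝ {y | y ∈ Φ ∧ ⟪y, r b⟫_ℝ ≠ 0} :=
        Submodule.subset_span ⟨hNΦ b hb, hbb⟩
      have h2 : T (l b) = (1 / 2 : ℝ) • r b := by
        rw [hr]; module
      rw [h2]
      exact Submodule.smul_mem _ _ h1
    have h3 : T (l b) - y = 0 := by
      refine eq_zero_of_span (Submodule.sub_mem _ hTb hy2) fun w hw => ?_
      have h4 := hy3 w hw.1 hw.2
      have h5 := horth w hw.1 hw.2
      have e : T (l b) - y = (∑ a, T (l a) + (v - T (l z)) - y) -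
          (∑ a, T (l a) + (v - T (l z)) - T (l b)) := by abel
      rw [e, inner_sub_left, h4, h5, sub_zero]
    exact hbz.2 (by rw [sub_eq_zero.1 h3]; exact hy1)
  -- a weight which is not orthogonal to any of the roots
  have hall : ∀ A ⊆ N, ∃ v, P z v ∧ ∀ b ∈ A, ⟪v, r b⟫_ℝ ≠ 0 := by
    intro A
    induction A using Finset.induction_on with
    | empty => exact fun _ => ⟨_, hP0 z, fun b hb => absurd hb (Finset.notMem_empty b)⟩
    | insert b A hbA ih =>
      intro hA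
      have hbN : b ∈ N := hA (Finset.mem_insert_self b A)
      obtain ⟨v, hv, h1⟩ := ih fun a ha => hA (Finset.mem_insert_of_mem ha)
      by_cases h2 : ⟪v, r b⟫_ℝ = 0
      · obtain ⟨x, hx, hxb, hvx⟩ : ∃ x ∈ Φ, ⟪x, r b⟫_ℝ ≠ 0 ∧ 0 < ⟪v, x⟫_ℝ := by
          obtain ⟨x, hx, hxb, hvx⟩ := hreach v hv b hbN
          rcases lt_or_gt_of_ne hvx with h3 | h3
          · exact ⟨-x, H.neg x hx, by rw [inner_neg_left]; exact neg_ne_zero.2 hxb, by
              rw [inner_neg_right]; linarith⟩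
          · exact ⟨x, hx, hxb, h3⟩
        refine ⟨v - x, ⟨hW.mov _ v hv.1 x hx hvx, ?_, ?_⟩, ?_⟩
        · have e : v - x - T (l z) = v - T (l z) - x := by abel
          rw [e]
          exact sub_mem hv.2.1 (hΦQ hx)
        · have h3 := hint z v hv x hx hvx.ne'
          rw [abs_of_pos (by linarith)] at h3
          rw [inner_sub_left, inner_sub_right, inner_sub_right, real_inner_comm v x, ← hv.2.2]
          linarith
        · intro c hc
          rcases Finset.mem_insert.1 hc with rfl | hc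
          · rw [inner_sub_left, h2, zero_sub]
            exact neg_ne_zero.2 hxb
          · have hbc : b ≠ c := by
              rintro rfl
              exact hbA hc
            have hcN : c ∈ N := hA (Finset.mem_insert_of_mem hc)
            have h3 : ⟪x, r c⟫_ℝ = 0 := by
              by_contra h4
              exact (hex2 b c hbc (hNΦ b hbN) (hNΦ c hcN)).2 x hx hxb h4
            rw [inner_sub_left, h3, sub_zero]
            exact h1 c hc
      · exact ⟨v, hv, fun c hc => by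
          rcases Finset.mem_insert.1 hc with rfl | hc
          · exact h2
          · exact h1 c hc⟩
  obtain ⟨v, hv, hvN⟩ := hall N (Finset.Subset.refl _)
  -- the roots with signs
  set ρ : Fin L → E := fun b => if 0 < ⟪v, r b⟫_ℝ then r b else -r b with hρ
  have hρΦ : ∀ b ∈ N, ρ b ∈ Φ := by
    intro b hb
    simp only [hρ]
    split_ifs
    · exact hNΦ b hb
    · exact H.neg _ (hNΦ b hb)
  have hρv : ∀ b ∈ N, 2 * ⟪v, ρ b⟫_ℝ = ⟪ρ b, ρ b⟫_ℝ := by
    intro b hb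
    have h1 := hint z v hv (r b) (hNΦ b hb) (hvN b hb)
    simp only [hρ]
    split_ifs with h2
    · rw [abs_of_pos (by linarith)] at h1
      exact h1
    · have h3 : ⟪v, r b⟫_ℝ < 0 := lt_of_le_of_ne (not_lt.1 h2) (hvN b hb)
      rw [abs_of_neg (by linarith)] at h1
      rw [inner_neg_right, inner_neg_neg]
      linarith
  have hρo : ∀ b ∈ N, ∀ c ∈ N, b ≠ c → ⟪ρ b, ρ c⟫_ℝ = 0 := by
    intro b hb c hc hbc
    have h1 := (hex2 b c hbc (hNΦ b hb) (hNΦ c hc)).1
    simp only [hρ]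
    split_ifs <;> simp [inner_neg_left, inner_neg_right, h1]
  have hρp : ∀ b ∈ N, 0 < ⟪ρ b, ρ b⟫_ℝ := fun b hb => hpos (hρΦ b hb)
  have hρr : ∀ (x : E) (b : Fin L), ⟪x, ρ b⟫_ℝ ≠ 0 → ⟪x, r b⟫_ℝ ≠ 0 := by
    intro x b h1 h2
    apply h1
    simp only [hρ]
    split_ifs
    · exact h2
    · rw [inner_neg_right, h2, neg_zero]
  have hsumρ : ∀ A ⊆ N, ∀ b ∈ N, ⟪∑ a ∈ A, ρ a, ρ b⟫_ℝ = if b ∈ A then ⟪ρ b, ρ b⟫_ℝ else 0 := by
    intro A hA b hb
    rw [sum_inner]
    by_cases hbA : b ∈ A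
    · rw [if_pos hbA]
      exact Finset.sum_eq_single_of_mem b hbA (fun a ha hab => hρo a (hA ha) b hb hab)
    · rw [if_neg hbA]
      refine Finset.sum_eq_zero (fun a ha => hρo a (hA ha) b hb ?_)
      rintro rfl
      exact hbA ha
  have hD : ∀ A ⊆ N, v - ∑ a ∈ A, ρ a ∈ W (l z) := by
    intro A
    induction A using Finset.induction_on with
    | empty =>
      intro _
      rw [Finset.sum_empty, sub_zero]
      exact hv.1
    | insert b A hb ih =>
      intro hA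
      have hm := ih (fun a ha => hA (Finset.mem_insert_of_mem ha))
      have hbN : b ∈ N := hA (Finset.mem_insert_self b A)
      have hp : 0 < ⟪v - ∑ a ∈ A, ρ a, ρ b⟫_ℝ := by
        rw [inner_sub_left, hsumρ A (fun a ha => hA (Finset.mem_insert_of_mem ha)) b hbN,
          if_neg hb, sub_zero]
        have h1 := hρv b hbN
        have h2 := hρp b hbN
        linarith
      have h3 := hW.mov (l z) _ hm (ρ b) (hρΦ b hbN) hp
      rw [Finset.sum_insert hb]
      have h4 : v - (ρ b + ∑ a ∈ A, ρ a) = v - ∑ a ∈ A, ρ a - ρ b := by abel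
      rw [h4]
      exact h3
  have hinj : Set.InjOn (fun A => v - ∑ a ∈ A, ρ a) (N.powerset : Set (Finset (Fin L))) := by
    intro A hA B hB' hAB
    rw [Finset.mem_coe, Finset.mem_powerset] at hA hB'
    have h1 : ∑ a ∈ A, ρ a = ∑ a ∈ B, ρ a := sub_right_injective hAB
    have key : ∀ b ∈ N, (b ∈ A ↔ b ∈ B) := by
      intro b hb
      have e1 := hsumρ A hA b hb
      have e2 := hsumρ B hB' b hb
      rw [h1, e2] at e1
      have p := (hρp b hb).ne'
      by_cases c1 : b ∈ A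
      · by_cases c2 : b ∈ B
        · exact ⟨fun _ => c2, fun _ => c1⟩
        · rw [if_pos c1, if_neg c2] at e1
          exact absurd e1.symm p
      · by_cases c2 : b ∈ B
        · rw [if_neg c1, if_pos c2] at e1
          exact absurd e1 p
        · exact ⟨fun h => absurd h c1, fun h => absurd h c2⟩
    ext b
    constructor
    · intro h; exact (key b (hA h)).1 h
    · intro h; exact (key b (hB' h)).2 h
  have hc1 : (N.powerset.image fun A => v - ∑ a ∈ A, ρ a).card = 2 ^ N.card := by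
    rw [Finset.card_image_of_injOn hinj, Finset.card_powerset]
  by_cases h5 : 5 ≤ N.card
  · have h1 := hW.card (l z) (N.powerset.image fun A => v - ∑ a ∈ A, ρ a) (by
      intro w hw
      obtain ⟨A, hA, rfl⟩ := Finset.mem_image.1 hw
      exact hD A (Finset.mem_powerset.1 hA))
    rw [hc1] at h1
    calc 32 = 2 ^ 5 := by norm_num
      _ ≤ 2 ^ N.card := Nat.pow_le_pow_right (by norm_num) h5
      _ ≤ _ := h1
  · have h4 : N.card = 4 := by omega
    by_cases hu : v + v = ∑ b ∈ N, ρ b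
    · -- the parity
      have hρinj : Set.InjOn ρ (N : Set (Fin L)) := by
        intro b hb c hc hbc
        by_contra hne
        have h6 := hρo b hb c hc hne
        rw [hbc] at h6
        exact (hρp c hc).ne' h6
      have h6 := hW.par (l z) v hv.1 (N.image ρ)
        (by rw [Finset.card_image_of_injOn hρinj, h4]; exact ⟨2, rfl⟩)
        (by
          intro x hx
          obtain ⟨b, hb, rfl⟩ := Finset.mem_image.1 hx
          exact hρΦ b hb)
        (by
          intro x hx y hy hxy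
          obtain ⟨b, hb, rfl⟩ := Finset.mem_image.1 hx
          obtain ⟨c, hc, rfl⟩ := Finset.mem_image.1 hy
          have hbc : b ≠ c := by
            rintro rfl
            exact hxy rfl
          have h7 := hρo b hb c hc hbc
          have h8 : ⟪ρ c, ρ b⟫_ℝ = 0 := by rw [real_inner_comm]; exact h7
          refine ⟨h7, fun h9 => ?_⟩
          refine (hex2 b c hbc (hNΦ b hb) (hNΦ c hc)).2 _ h9 (hρr _ _ ?_) (hρr _ _ ?_)
          · rw [inner_add_left, h8, add_zero]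
            exact (hρp b hb).ne'
          · rw [inner_add_left, h7, zero_add]
            exact (hρp c hc).ne')
        (by rw [hu, Finset.sum_image hρinj])
      rw [Finset.card_image_of_injOn hρinj, h4] at h6
      exact h6
    · -- the negatives
      have hdisj : Disjoint (N.powerset.image fun A => v - ∑ a ∈ A, ρ a)
          ((N.powerset.image fun A => v - ∑ a ∈ A, ρ a).image fun w => -w) := by
        rw [Finset.disjoint_left]
        intro w hw hw'
        obtain ⟨A, hA, rfl⟩ := Finset.mem_image.1 hw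
        obtain ⟨w', hw'', he⟩ := Finset.mem_image.1 hw'
        obtain ⟨B, hB', rfl⟩ := Finset.mem_image.1 hw''
        have hA' := Finset.mem_powerset.1 hA
        have hB'' := Finset.mem_powerset.1 hB'
        apply hu
        have h6 : v + v = ∑ a ∈ A, ρ a + ∑ a ∈ B, ρ a := by
          have h7 : -(v - ∑ a ∈ B, ρ a) = v - ∑ a ∈ A, ρ a := he
          rw [← sub_eq_zero] at h7 ⊢
          rw [← neg_eq_zero, ← h7]
          abel
        have h7 : ∀ c ∈ N, (c ∈ A ↔ ¬ c ∈ B) := by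
          intro c hc
          have h8 : ⟪v + v, ρ c⟫_ℝ = ⟪ρ c, ρ c⟫_ℝ := by
            rw [inner_add_left]
            have := hρv c hc
            linarith
          rw [h6, inner_add_left, hsumρ A hA' c hc, hsumρ B hB'' c hc] at h8
          have p := (hρp c hc).ne'
          by_cases c1 : c ∈ A
          · by_cases c2 : c ∈ B
            · rw [if_pos c1, if_pos c2] at h8
              exact absurd (add_eq_right.1 h8) p
            · exact ⟨fun _ => c2, fun _ => c1⟩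
          · by_cases c2 : c ∈ B
            · exact ⟨fun h => absurd h c1, fun h => absurd c2 h⟩
            · rw [if_neg c1, if_neg c2, add_zero] at h8
              exact absurd h8.symm p
        have h8 : N = A ∪ B := by
          ext c
          constructor
          · intro hc
            by_cases c1 : c ∈ A
            · exact Finset.mem_union_left _ c1
            · refine Finset.mem_union_right _ ?_
              by_contra c2
              exact c1 ((h7 c hc).2 c2)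
          · intro hc
            rcases Finset.mem_union.1 hc with hc | hc
            · exact hA' hc
            · exact hB'' hc
        have h9 : Disjoint A B := by
          rw [Finset.disjoint_left]
          intro c hc hc'
          exact (h7 c (hA' hc)).1 hc hc'
        rw [h6, h8, Finset.sum_union h9]
      have h6 := hW.card (l z) ((N.powerset.image fun A => v - ∑ a ∈ A, ρ a) ∪
          ((N.powerset.image fun A => v - ∑ a ∈ A, ρ a).image fun w => -w)) (by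
        intro w hw
        rcases Finset.mem_union.1 hw with hw | hw
        · obtain ⟨A, hA, rfl⟩ := Finset.mem_image.1 hw
          exact hD A (Finset.mem_powerset.1 hA)
        · obtain ⟨w', hw', rfl⟩ := Finset.mem_image.1 hw
          obtain ⟨A, hA, rfl⟩ := Finset.mem_image.1 hw'
          exact hW.neg _ _ (hD A (Finset.mem_powerset.1 hA)))
      rw [Finset.card_union_of_disjoint hdisj,
        Finset.card_image_of_injective _ neg_injective, hc1, h4] at h6
      exact h6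

end Pool.Agent.Lib.MP_361a6f_ag.FL.E11
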